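import Pool.Agent.H189R2.Iid.Low

/-! A crossing lemma with weights on the points. -/

set_option autoImplicit false

namespace Pool.Agent.TH529.RD

open Finset Pool.Agent.H189R2.Iid

variable {n : ℕ}

/-- probability of the set of points with value `true` -/
noncomputable def wt (p : Fin n → ℝ) (c : Fin n → Bool) : ℝ :=
  ∏ l, (if c l then p l else 1 - p l)

theorem wt_nonneg {p : Fin n → ℝ} (h0 : ∀ l, 0 ≤ p l) (h1 : ∀ l, p l ≤ 1) (c : Fin n → Bool) :
    0 ≤ wt p c := by
  unfold wt
  apply prod_nonneg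
  intro l _
  split_ifs
  · exact h0 l
  · linarith [h1 l]

/-- the probability that all points of `A` are chosen -/
theorem wt_sum (p : Fin n → ℝ) (A : Finset (Fin n)) :
    ∑ c : Fin n → Bool, (if (∀ l ∈ A, c l = true) then wt p c else 0) = ∏ l ∈ A, p l := by
  classical
  have e : ∀ c : Fin n → Bool, (∀ l ∈ A, c l = true) ↔
      c ∈ Fintype.piFinset (fun l => if l ∈ A then ({true} : Finset Bool) else univ) := by
    intro c
    rw [Fintype.mem_piFinset]
    constructor
    · intro h l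
      by_cases hl : l ∈ A
      · simp [hl, h l hl]
      · simp [hl]
    · intro h l hl
      have := h l
      simpa [hl] using this
  simp_rw [e]
  rw [← sum_filter]
  have e3 : univ.filter (fun c : Fin n → Bool => c ∈ Fintype.piFinset
      (fun i => if i ∈ A then ({true} : Finset Bool) else univ)) = Fintype.piFinset
      (fun i => if i ∈ A then ({true} : Finset Bool) else univ) := by
    ext c; simp
  rw [e3]
  unfold wt
  rw [← Finset.prod_univ_sum (fun i => if i ∈ A then ({true} : Finset Bool) else univ)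
    (fun l b => if b then p l else 1 - p l)]
  have e4 : ∀ i, ∑ j ∈ (if i ∈ A then ({true} : Finset Bool) else univ),
      (if j then p i else 1 - p i) = if i ∈ A then p i else 1 := by
    intro i
    by_cases hi : i ∈ A
    · simp [hi]
    · simp [hi]
  simp_rw [e4]
  rw [prod_ite_mem, univ_inter]

/-- crossing pairs of `G` -/
noncomputable def Xs (P : Fin n → ℝ × ℝ) (G : Finset (Fin n × Fin n)) :
    Finset ((Fin n × Fin n) × (Fin n × Fin n)) := by
  classical
  exact (G ×ˢ G).filter (fun q => q.1 ≠ q.2 ∧ CrossP (P q.1.1) (P q.1.2) (P q.2.1) (P q.2.2))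

theorem mem_Xs {P : Fin n → ℝ × ℝ} {G : Finset (Fin n × Fin n)}
    {q : (Fin n × Fin n) × (Fin n × Fin n)} :
    q ∈ Xs P G ↔ q.1 ∈ G ∧ q.2 ∈ G ∧ q.1 ≠ q.2 ∧
      CrossP (P q.1.1) (P q.1.2) (P q.2.1) (P q.2.2) := by
  classical
  unfold Xs
  rw [mem_filter, mem_product, and_assoc]

/-- the bound for the pairs inside a set `S` of points -/
theorem edges_sub {P : Fin n → ℝ × ℝ} (hP : GP P) (S : Finset (Fin n))
    (G : Finset (Fin n × Fin n)) (hG : G ⊆ T P) (hS : ∀ q ∈ G, q.1 ∈ S ∧ q.2 ∈ S) :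
    G.card ≤ 3 * S.card + (Xs P G).card := by
  classical
  set em := S.orderEmbOfFin rfl with hem
  set Q : Fin S.card → ℝ × ℝ := fun a => P (em a) with hQ
  have hQGP : GP Q := by
    refine ⟨fun i j h => em.injective (hP.1 _ _ h), fun i j r s h1 h2 h3 => ?_⟩
    have := hP.2 _ _ _ _ h1 h2 h3
    exact ⟨em.injective this.1, em.injective this.2⟩
  have hex : ∀ l ∈ S, ∃ a, em a = l := by
    intro l hl
    have : l ∈ Set.range em := by
      rw [hem, Finset.range_orderEmbOfFin]; exact hl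
    exact this
  set G' : Finset (Fin S.card × Fin S.card) := univ.filter (fun q => (em q.1, em q.2) ∈ G)
    with hG'
  have h1 := edges_le hQGP G' (fun e he => by
    rw [hG', mem_filter] at he
    have := hG he.2
    rw [mem_T] at this
    exact this)
  have h2 : G.card ≤ G'.card := by
    have : G ⊆ G'.image (fun q => (em q.1, em q.2)) := by
      intro q hq
      obtain ⟨hq1, hq2⟩ := hS q hq
      obtain ⟨a, ha⟩ := hex _ hq1
      obtain ⟨b, hb⟩ := hex _ hq2
      rw [mem_image]
      refine ⟨(a, b), ?_, ?_⟩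
      · rw [hG', mem_filter]
        refine ⟨mem_univ _, ?_⟩
        simp only [ha, hb]
        exact hq
      · simp only [ha, hb]
    exact (card_le_card this).trans card_image_le
  have h3 : ((G' ×ˢ G').filter (fun q => q.1 ≠ q.2 ∧
      CrossP (Q q.1.1) (Q q.1.2) (Q q.2.1) (Q q.2.2))).card ≤ (Xs P G).card := by
    apply card_le_card_of_injOn
      (fun q => (((em q.1.1, em q.1.2), (em q.2.1, em q.2.2)) :
        (Fin n × Fin n) × (Fin n × Fin n)))
    · intro q hq
      rw [mem_coe, mem_filter, mem_product] at hq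
      obtain ⟨⟨b1, b2⟩, b3, b4⟩ := hq
      rw [hG', mem_filter] at b1 b2
      rw [mem_coe, mem_Xs]
      refine ⟨b1.2, b2.2, ?_, b4⟩
      intro h
      apply b3
      have c1 := congrArg Prod.fst h
      have c2 := congrArg Prod.snd h
      simp only at c1 c2
      exact Prod.ext (em.injective c1) (em.injective c2)
    · intro q _ q' _ h
      simp only [Prod.mk.injEq, EmbeddingLike.apply_eq_iff_eq] at h
      obtain ⟨⟨c1, c2⟩, c3, c4⟩ := h
      exact Prod.ext (Prod.ext c1 c2) (Prod.ext c3 c4)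
  omega

/-- the crossing lemma with weights -/
theorem crossing {P : Fin n → ℝ × ℝ} (hP : GP P) {p : Fin n → ℝ} (h0 : ∀ l, 0 ≤ p l)
    (h1 : ∀ l, p l ≤ 1) (G : Finset (Fin n × Fin n)) (hG : G ⊆ T P) :
    ∑ q ∈ G, p q.1 * p q.2 ≤ 3 * ∑ l, p l +
      ∑ z ∈ Xs P G, p z.1.1 * p z.1.2 * (p z.2.1 * p z.2.2) := by
  classical
  have key : ∀ c : Fin n → Bool,
      (∑ q ∈ G, if (∀ l ∈ ({q.1, q.2} : Finset (Fin n)), c l = true) then (1 : ℝ) else 0) ≤
      3 * (∑ l, if (∀ i ∈ ({l} : Finset (Fin n)), c i = true) then (1 : ℝ) else 0) +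
      ∑ z ∈ Xs P G, if (∀ l ∈ ({z.1.1, z.1.2, z.2.1, z.2.2} : Finset (Fin n)), c l = true)
        then (1 : ℝ) else 0 := by
    intro c
    set S := univ.filter (fun l => c l = true) with hS
    set Gc := G.filter (fun q => c q.1 = true ∧ c q.2 = true) with hGc
    have h := edges_sub hP S Gc ((filter_subset _ _).trans hG) (fun q hq => by
      rw [hGc, mem_filter] at hq
      rw [hS, mem_filter, mem_filter]
      exact ⟨⟨mem_univ _, hq.2.1⟩, ⟨mem_univ _, hq.2.2⟩⟩)
    have e1 : (∑ q ∈ G, if (∀ l ∈ ({q.1, q.2} : Finset (Fin n)), c l = true) then (1 : ℝ) else 0)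
        = (Gc.card : ℝ) := by
      rw [hGc, card_filter]
      push_cast
      apply sum_congr rfl
      intro q _
      simp
    have e2 : (∑ l, if (∀ i ∈ ({l} : Finset (Fin n)), c i = true) then (1 : ℝ) else 0) =
        (S.card : ℝ) := by
      rw [hS, card_filter]
      push_cast
      apply sum_congr rfl
      intro q _
      simp
    have e3 : (∑ z ∈ Xs P G, if (∀ l ∈ ({z.1.1, z.1.2, z.2.1, z.2.2} : Finset (Fin n)),
        c l = true) then (1 : ℝ) else 0) = ((Xs P Gc).card : ℝ) := by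
      have : Xs P Gc = (Xs P G).filter (fun z => ∀ l ∈ ({z.1.1, z.1.2, z.2.1, z.2.2} :
          Finset (Fin n)), c l = true) := by
        ext z
        rw [mem_filter, mem_Xs, mem_Xs, hGc, mem_filter, mem_filter]
        constructor
        · rintro ⟨⟨a1, a2, a3⟩, ⟨a4, a5, a6⟩, a7, a8⟩
          refine ⟨⟨a1, a4, a7, a8⟩, ?_⟩
          intro l hl
          simp only [mem_insert, mem_singleton] at hl
          rcases hl with rfl | rfl | rfl | rfl
          · exact a2
          · exact a3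
          · exact a5
          · exact a6
        · rintro ⟨⟨a1, a4, a7, a8⟩, h⟩
          exact ⟨⟨a1, h _ (by simp), h _ (by simp)⟩, ⟨a4, h _ (by simp), h _ (by simp)⟩, a7, a8⟩
      rw [this, card_filter]
      push_cast
      rfl
    rw [e1, e2, e3]
    exact_mod_cast h
  have hsum : ∑ c : Fin n → Bool, wt p c *
      (∑ q ∈ G, if (∀ l ∈ ({q.1, q.2} : Finset (Fin n)), c l = true) then (1 : ℝ) else 0) ≤
      ∑ c : Fin n → Bool, wt p c *
      (3 * (∑ l, if (∀ i ∈ ({l} : Finset (Fin n)), c i = true) then (1 : ℝ) else 0) +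
      ∑ z ∈ Xs P G, if (∀ l ∈ ({z.1.1, z.1.2, z.2.1, z.2.2} : Finset (Fin n)), c l = true)
        then (1 : ℝ) else 0) :=
    sum_le_sum (fun c _ => mul_le_mul_of_nonneg_left (key c) (wt_nonneg h0 h1 c))
  have conv : ∀ {ι : Type} (s : Finset ι) (A : ι → Finset (Fin n)),
      ∑ c : Fin n → Bool, wt p c * (∑ i ∈ s, if (∀ l ∈ A i, c l = true) then (1 : ℝ) else 0) =
      ∑ i ∈ s, ∏ l ∈ A i, p l := by
    intro ι s A
    simp_rw [mul_sum, mul_ite, mul_one, mul_zero]
    rw [sum_comm]
    exact sum_congr rfl (fun i _ => wt_sum p (A i))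
  have r1 := conv G (fun q => ({q.1, q.2} : Finset (Fin n)))
  have r2 := conv (univ : Finset (Fin n)) (fun l => ({l} : Finset (Fin n)))
  have r3 := conv (Xs P G) (fun z => ({z.1.1, z.1.2, z.2.1, z.2.2} : Finset (Fin n)))
  simp_rw [mul_add, ← mul_assoc, mul_comm _ (3 : ℝ), mul_assoc (3 : ℝ)] at hsum
  rw [sum_add_distrib, ← mul_sum, r1, r2, r3] at hsum
  have s1 : ∑ q ∈ G, ∏ l ∈ ({q.1, q.2} : Finset (Fin n)), p l = ∑ q ∈ G, p q.1 * p q.2 := by
    apply sum_congr rfl
    intro q hq
    have hq' := mem_T.mp (hG hq)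
    have hne : q.1 ≠ q.2 := by
      intro h; rw [h] at hq'; exact lt_irrefl _ hq'
    rw [prod_pair hne]
  have s3 : ∑ z ∈ Xs P G, ∏ l ∈ ({z.1.1, z.1.2, z.2.1, z.2.2} : Finset (Fin n)), p l =
      ∑ z ∈ Xs P G, p z.1.1 * p z.1.2 * (p z.2.1 * p z.2.2) := by
    apply sum_congr rfl
    intro z hz
    rw [mem_Xs] at hz
    obtain ⟨a1, a2, a3, a4⟩ := hz
    obtain ⟨b1, b2, b3, b4, b5, b6⟩ := cross_distinct hP (hG a1) (hG a2) a3 a4
    rw [prod_insert (by simp [b1, b3, b4]), prod_insert (by simp [b5, b6]), prod_pair b2]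
    ring
  rw [s1, s3] at hsum
  simpa using hsum

end Pool.Agent.TH529.RD
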