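import Pool.Agent.TH529.RD.Win

/-! Edges of one level at few points. -/

set_option autoImplicit false

namespace Pool.Agent.TH529.RD

open Finset Pool.Agent.H189R2.Iid

variable {n : ℕ}

/-- the pairs of level `k` -/
noncomputable def Gk (P : Fin n → ℝ × ℝ) (k : ℕ) : Finset (Fin n × Fin n) := by
  classical
  exact (T P).filter (fun q => lev P q = k)

theorem mem_Gk {P : Fin n → ℝ × ℝ} {k : ℕ} {q : Fin n × Fin n} :
    q ∈ Gk P k ↔ (P q.2).1 < (P q.1).1 ∧ lev P q = k := by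
  classical
  unfold Gk
  rw [mem_filter, mem_T]

theorem Gk_sub (P : Fin n → ℝ × ℝ) (k : ℕ) : Gk P k ⊆ T P := by
  intro q hq
  rw [mem_Gk] at hq
  exact mem_T.mpr hq.1

theorem X_le {P : Fin n → ℝ × ℝ} (hP : GP P) (k : ℕ) {G : Finset (Fin n × Fin n)}
    (hG : G ⊆ Gk P k) : ((Xs P G).card : ℝ) ≤ 6 * n * (k + 1) := by
  classical
  have h2 := cross_window hP {k} (K := k) (fun j hj => by
    rw [mem_singleton] at hj; omega)
  have h3 := low_le hP k
  have h4 : Xs P G ⊆ (T P ×ˢ T P).filter (fun q => q.1 ≠ q.2 ∧ lev P q.1 ∈ ({k} : Finset ℕ) ∧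
      lev P q.2 ∈ ({k} : Finset ℕ) ∧
      CrossP (P q.1.1) (P q.1.2) (P q.2.1) (P q.2.2)) := by
    intro q hq
    rw [mem_Xs] at hq
    have h5 := mem_Gk.mp (hG hq.1)
    have h6 := mem_Gk.mp (hG hq.2.1)
    rw [mem_filter, mem_product, mem_T, mem_T]
    exact ⟨⟨h5.1, h6.1⟩, hq.2.2.1, mem_singleton.mpr h5.2, mem_singleton.mpr h6.2, hq.2.2.2⟩
  have h5 := (card_le_card h4).trans h2
  rw [card_singleton, one_pow, one_mul] at h5
  have h6 : ((Xs P G).card : ℝ) ≤ 2 * (((T P).filter (fun q => lev P q ≤ k)).card : ℝ) := by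
    exact_mod_cast h5
  linarith

/-- pairs with exactly one point in `A` -/
theorem one_le {P : Fin n → ℝ × ℝ} (hP : GP P) (A : Finset (Fin n))
    (G : Finset (Fin n × Fin n)) (hG : G ⊆ T P)
    (hA : ∀ q ∈ G, (q.1 ∈ A ∧ q.2 ∉ A) ∨ (q.1 ∉ A ∧ q.2 ∈ A)) :
    (G.card : ℝ) < 12 * n ∨ (G.card : ℝ) ^ 3 ≤ 288 * (Xs P G).card * (A.card * n) := by
  classical
  by_contra hcon
  push Not at hcon
  obtain ⟨c1, c2⟩ := hcon
  obtain ⟨g, hg⟩ : ∃ g : ℝ, g = (G.card : ℝ) := ⟨_, rfl⟩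
  obtain ⟨X, hX⟩ : ∃ X : ℝ, X = ((Xs P G).card : ℝ) := ⟨_, rfl⟩
  obtain ⟨a, ha⟩ : ∃ a : ℝ, a = (A.card : ℝ) := ⟨_, rfl⟩
  rw [← hg] at c1 c2
  rw [← hX, ← ha] at c2
  have hg0 : 0 ≤ g := by rw [hg]; exact Nat.cast_nonneg _
  have hX0 : 0 ≤ X := by rw [hX]; exact Nat.cast_nonneg _
  have ha0 : 0 ≤ a := by rw [ha]; exact Nat.cast_nonneg _
  have hn0 : (0 : ℝ) ≤ n := Nat.cast_nonneg _
  have hgpos : 0 < g := by
    rcases hg0.lt_or_eq with h | h
    · exact h
    · exfalso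
      rw [← h] at c2
      have : 0 ≤ 288 * X * (a * n) := by positivity
      nlinarith
  have hGne : G.Nonempty := by
    rw [← card_pos]
    have : (0 : ℝ) < (G.card : ℝ) := by rw [← hg]; exact hgpos
    exact_mod_cast this
  obtain ⟨q0, hq0⟩ := hGne
  have hnpos : (0 : ℝ) < n := by exact_mod_cast (lt_of_le_of_lt (Nat.zero_le _) q0.1.isLt)
  have hapos : 0 < a := by
    rw [ha]
    have : A.Nonempty := by
      rcases hA q0 hq0 with h | h
      · exact ⟨_, h.1⟩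
      · exact ⟨_, h.2⟩
    exact_mod_cast this.card_pos
  -- weights
  set α : ℝ := 12 * n / g with hα
  set β : ℝ := 12 * a / g with hβ
  have hα0 : 0 ≤ α := by positivity
  have hβ0 : 0 ≤ β := by positivity
  have han : a ≤ n := by
    rw [ha]
    have := card_le_univ A
    rw [Fintype.card_fin] at this
    exact_mod_cast this
  have hα1 : α ≤ 1 := by rw [hα, div_le_one hgpos]; linarith
  have hβ1 : β ≤ 1 := by rw [hβ, div_le_one hgpos]; linarith
  set p : Fin n → ℝ := fun l => if l ∈ A then α else β with hp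
  have h := crossing hP (p := p) (fun l => by
      rw [hp]; simp only; split_ifs <;> assumption) (fun l => by
      rw [hp]; simp only; split_ifs <;> assumption) G hG
  have hpair : ∀ q ∈ G, p q.1 * p q.2 = α * β := by
    intro q hq
    rcases hA q hq with ⟨h1, h2⟩ | ⟨h1, h2⟩
    · rw [hp]; simp only [h1, h2, if_true, if_false]
    · rw [hp]; simp only [h1, h2, if_true, if_false]; ring
  have e1 : ∑ q ∈ G, p q.1 * p q.2 = g * (α * β) := by
    rw [sum_congr rfl hpair, sum_const, nsmul_eq_mul, hg]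
  have e2 : ∑ l, p l ≤ a * α + n * β := by
    have : ∀ l, p l ≤ (if l ∈ A then α else 0) + β := by
      intro l
      rw [hp]
      simp only
      split_ifs <;> linarith
    refine (sum_le_sum (fun l _ => this l)).trans ?_
    rw [sum_add_distrib, sum_ite_mem, univ_inter, sum_const, sum_const, card_univ,
      Fintype.card_fin, nsmul_eq_mul, nsmul_eq_mul, ha]
  have e3 : ∑ z ∈ Xs P G, p z.1.1 * p z.1.2 * (p z.2.1 * p z.2.2) = X * (α * β) ^ 2 := by
    have : ∀ z ∈ Xs P G, p z.1.1 * p z.1.2 * (p z.2.1 * p z.2.2) = (α * β) ^ 2 := by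
      intro z hz
      rw [mem_Xs] at hz
      rw [hpair _ hz.1, hpair _ hz.2.1]; ring
    rw [sum_congr rfl this, sum_const, nsmul_eq_mul, hX]
  rw [e1, e3] at h
  have h1 : g * (α * β) ≤ 3 * (a * α + n * β) + X * (α * β) ^ 2 := by linarith
  have eα : α * g = 12 * n := by rw [hα]; field_simp
  have eβ : β * g = 12 * a := by rw [hβ]; field_simp
  -- multiply by g ^ 4
  have h2 : g * (α * β) * g ^ 4 ≤ (3 * (a * α + n * β) + X * (α * β) ^ 2) * g ^ 4 :=
    mul_le_mul_of_nonneg_right h1 (by positivity)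
  have f1 : g * (α * β) * g ^ 4 = (α * g) * (β * g) * g ^ 3 := by ring
  have f2 : (3 * (a * α + n * β) + X * (α * β) ^ 2) * g ^ 4 =
      3 * (a * (α * g) + n * (β * g)) * g ^ 3 + X * ((α * g) * (β * g)) ^ 2 := by ring
  rw [f1, f2, eα, eβ] at h2
  have h3 : (a * n) * (72 * g ^ 3) ≤ (a * n) * (20736 * X * (a * n)) := by nlinarith
  have h4 := le_of_mul_le_mul_left h3 (mul_pos hapos hnpos)
  linarith

/-- pairs with both points in `A` -/
theorem two_le {P : Fin n → ℝ × ℝ} (hP : GP P) (A : Finset (Fin n))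
    (G : Finset (Fin n × Fin n)) (hG : G ⊆ T P)
    (hA : ∀ q ∈ G, q.1 ∈ A ∧ q.2 ∈ A) :
    (G.card : ℝ) < 6 * A.card ∨ (G.card : ℝ) ^ 3 ≤ 72 * (Xs P G).card * (A.card) ^ 2 := by
  classical
  by_contra hcon
  push Not at hcon
  obtain ⟨c1, c2⟩ := hcon
  obtain ⟨g, hg⟩ : ∃ g : ℝ, g = (G.card : ℝ) := ⟨_, rfl⟩
  obtain ⟨X, hX⟩ : ∃ X : ℝ, X = ((Xs P G).card : ℝ) := ⟨_, rfl⟩
  obtain ⟨a, ha⟩ : ∃ a : ℝ, a = (A.card : ℝ) := ⟨_, rfl⟩
  rw [← hg, ← ha] at c1
  rw [← hg, ← hX, ← ha] at c2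
  have hg0 : 0 ≤ g := by rw [hg]; exact Nat.cast_nonneg _
  have hX0 : 0 ≤ X := by rw [hX]; exact Nat.cast_nonneg _
  have ha0 : 0 ≤ a := by rw [ha]; exact Nat.cast_nonneg _
  have hgpos : 0 < g := by
    rcases hg0.lt_or_eq with h | h
    · exact h
    · exfalso
      rw [← h] at c2
      have : 0 ≤ 72 * X * a ^ 2 := by positivity
      nlinarith
  have hGne : G.Nonempty := by
    rw [← card_pos]
    have : (0 : ℝ) < (G.card : ℝ) := by rw [← hg]; exact hgpos
    exact_mod_cast this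
  obtain ⟨q0, hq0⟩ := hGne
  have hapos : 0 < a := by
    rw [ha]
    have : A.Nonempty := ⟨_, (hA q0 hq0).1⟩
    exact_mod_cast this.card_pos
  set α : ℝ := 6 * a / g with hα
  have hα0 : 0 ≤ α := by positivity
  have hα1 : α ≤ 1 := by rw [hα, div_le_one hgpos]; linarith
  set p : Fin n → ℝ := fun l => if l ∈ A then α else 0 with hp
  have h := crossing hP (p := p) (fun l => by
      rw [hp]; simp only; split_ifs
      · exact hα0
      · exact le_rfl) (fun l => by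
      rw [hp]; simp only; split_ifs
      · exact hα1
      · exact zero_le_one) G hG
  have hpair : ∀ q ∈ G, p q.1 * p q.2 = α * α := by
    intro q hq
    obtain ⟨h1, h2⟩ := hA q hq
    rw [hp]; simp only [h1, h2, if_true]
  have e1 : ∑ q ∈ G, p q.1 * p q.2 = g * (α * α) := by
    rw [sum_congr rfl hpair, sum_const, nsmul_eq_mul, hg]
  have e2 : ∑ l, p l = a * α := by
    rw [hp, sum_ite_mem, univ_inter, sum_const, nsmul_eq_mul, ha]
  have e3 : ∑ z ∈ Xs P G, p z.1.1 * p z.1.2 * (p z.2.1 * p z.2.2) = X * (α * α) ^ 2 := by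
    have : ∀ z ∈ Xs P G, p z.1.1 * p z.1.2 * (p z.2.1 * p z.2.2) = (α * α) ^ 2 := by
      intro z hz
      rw [mem_Xs] at hz
      rw [hpair _ hz.1, hpair _ hz.2.1]; ring
    rw [sum_congr rfl this, sum_const, nsmul_eq_mul, hX]
  rw [e1, e2, e3] at h
  have eα : α * g = 6 * a := by rw [hα]; field_simp
  have h2 : g * (α * α) * g ^ 4 ≤ (3 * (a * α) + X * (α * α) ^ 2) * g ^ 4 :=
    mul_le_mul_of_nonneg_right h (by positivity)
  have f1 : g * (α * α) * g ^ 4 = (α * g) ^ 2 * g ^ 3 := by ring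
  have f2 : (3 * (a * α) + X * (α * α) ^ 2) * g ^ 4 =
      3 * (a * (α * g)) * g ^ 3 + X * (α * g) ^ 4 := by ring
  rw [f1, f2, eα] at h2
  have h3 : a ^ 2 * (18 * g ^ 3) ≤ a ^ 2 * (1296 * X * a ^ 2) := by nlinarith
  have h4 := le_of_mul_le_mul_left h3 (by positivity : 0 < a ^ 2)
  linarith

/-- few pairs of a level with a given right point -/
theorem right_le {P : Fin n → ℝ × ℝ} (hP : GP P) (k : ℕ) (v : Fin n) :
    ((Gk P k).filter (fun q => q.1 = v)).card ≤ k + 1 := by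
  classical
  set J := (Gk P k).filter (fun q => q.1 = v) with hJ
  rcases J.eq_empty_or_nonempty with h0 | hne
  · rw [h0]; simp
  obtain ⟨q0, hq0, hmax⟩ := J.exists_max_image (fun q => X2 (P v) (P q.2)) hne
  rw [hJ, mem_filter, mem_Gk] at hq0
  obtain ⟨⟨h1, h2⟩, h3⟩ := hq0
  rw [h3] at h1
  have h4 : (J.erase q0).card ≤ lev P q0 := by
    unfold lev
    apply card_le_card_of_injOn (fun q => q.2)
    · intro q hq
      rw [mem_coe, mem_erase] at hq
      have hqJ := hq.2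
      rw [hJ, mem_filter, mem_Gk] at hqJ
      obtain ⟨⟨g1, g2⟩, g3⟩ := hqJ
      rw [g3] at g1
      rw [mem_coe, mem_filter]
      refine ⟨mem_univ _, ?_⟩
      rw [h3]
      have hX : X2 (P v) (P q.2) < X2 (P v) (P q0.2) := by
        refine lt_of_le_of_ne (hmax q hq.2) (fun h => ?_)
        have := hP.2 _ _ _ _ g1 h1 h
        apply hq.1
        exact Prod.ext (g3.trans h3.symm) this.2
      have hd : 0 < (P v).1 - (P q.2).1 := by linarith
      have e : X2 (P v) (P q.2) * ((P v).1 - (P q.2).1) = (P q.2).2 - (P v).2 := by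
        unfold X2; rw [div_mul_cancel₀ _ hd.ne']
      show (P q.2).1 * X2 (P v) (P q0.2) + (P q.2).2 < Y2 (P v) (P q0.2)
      unfold Y2
      have := mul_lt_mul_of_pos_right hX hd
      nlinarith
    · intro q hq q' hq' h
      rw [mem_coe, mem_erase] at hq hq'
      have g := hq.2
      have g' := hq'.2
      rw [hJ, mem_filter] at g g'
      exact Prod.ext (g.2.trans g'.2.symm) h
  have hq0J : q0 ∈ J := by
    rw [hJ, mem_filter, mem_Gk, h3]
    exact ⟨⟨h1, h2⟩, rfl⟩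
  rw [card_erase_of_mem hq0J, h2] at h4
  omega

/-- few pairs of a level with a given left point -/
theorem left_le {P : Fin n → ℝ × ℝ} (hP : GP P) (k : ℕ) (v : Fin n) :
    ((Gk P k).filter (fun q => q.2 = v)).card ≤ k + 1 := by
  classical
  set J := (Gk P k).filter (fun q => q.2 = v) with hJ
  rcases J.eq_empty_or_nonempty with h0 | hne
  · rw [h0]; simp
  obtain ⟨q0, hq0, hmin⟩ := J.exists_min_image (fun q => X2 (P q.1) (P v)) hne
  rw [hJ, mem_filter, mem_Gk] at hq0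
  obtain ⟨⟨h1, h2⟩, h3⟩ := hq0
  rw [h3] at h1
  have h4 : (J.erase q0).card ≤ lev P q0 := by
    unfold lev
    apply card_le_card_of_injOn (fun q => q.1)
    · intro q hq
      rw [mem_coe, mem_erase] at hq
      have hqJ := hq.2
      rw [hJ, mem_filter, mem_Gk] at hqJ
      obtain ⟨⟨g1, g2⟩, g3⟩ := hqJ
      rw [g3] at g1
      rw [mem_coe, mem_filter]
      refine ⟨mem_univ _, ?_⟩
      rw [h3]
      have hX : X2 (P q0.1) (P v) < X2 (P q.1) (P v) := by
        refine lt_of_le_of_ne (hmin q hq.2) (fun h => ?_)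
        have := hP.2 _ _ _ _ h1 g1 h
        apply hq.1
        exact Prod.ext this.1.symm (g3.trans h3.symm)
      have hd : 0 < (P q.1).1 - (P v).1 := by linarith
      have e : X2 (P q.1) (P v) * ((P q.1).1 - (P v).1) = (P v).2 - (P q.1).2 := by
        unfold X2; rw [div_mul_cancel₀ _ hd.ne']
      have hd0 : 0 < (P q0.1).1 - (P v).1 := by linarith
      have e0 : X2 (P q0.1) (P v) * ((P q0.1).1 - (P v).1) = (P v).2 - (P q0.1).2 := by
        unfold X2; rw [div_mul_cancel₀ _ hd0.ne']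
      show (P q.1).1 * X2 (P q0.1) (P v) + (P q.1).2 < Y2 (P q0.1) (P v)
      unfold Y2
      have := mul_lt_mul_of_pos_right hX hd
      nlinarith
    · intro q hq q' hq' h
      rw [mem_coe, mem_erase] at hq hq'
      have g := hq.2
      have g' := hq'.2
      rw [hJ, mem_filter] at g g'
      exact Prod.ext h (g.2.trans g'.2.symm)
  have hq0J : q0 ∈ J := by
    rw [hJ, mem_filter, mem_Gk, h3]
    exact ⟨⟨h1, h2⟩, rfl⟩
  rw [card_erase_of_mem hq0J, h2] at h4
  omega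

/-- the pairs of level `k` with a point in `A` -/
noncomputable def GA (P : Fin n → ℝ × ℝ) (k : ℕ) (A : Finset (Fin n)) :
    Finset (Fin n × Fin n) := by
  classical
  exact (Gk P k).filter (fun q => q.1 ∈ A ∨ q.2 ∈ A)

theorem mem_GA {P : Fin n → ℝ × ℝ} {k : ℕ} {A : Finset (Fin n)} {q : Fin n × Fin n} :
    q ∈ GA P k A ↔ (P q.2).1 < (P q.1).1 ∧ lev P q = k ∧ (q.1 ∈ A ∨ q.2 ∈ A) := by
  classical
  unfold GA
  rw [mem_filter, mem_Gk, and_assoc]

theorem trivial_le {P : Fin n → ℝ × ℝ} (hP : GP P) (k : ℕ) (A : Finset (Fin n)) :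
    (GA P k A).card ≤ 2 * (A.card * (k + 1)) := by
  classical
  have hsub : GA P k A ⊆ (A.biUnion (fun v => (Gk P k).filter (fun q => q.1 = v))) ∪
      (A.biUnion (fun v => (Gk P k).filter (fun q => q.2 = v))) := by
    intro q hq
    rw [mem_GA] at hq
    rw [mem_union, mem_biUnion, mem_biUnion]
    rcases hq.2.2 with h | h
    · exact Or.inl ⟨q.1, h, mem_filter.mpr ⟨mem_Gk.mpr ⟨hq.1, hq.2.1⟩, rfl⟩⟩
    · exact Or.inr ⟨q.2, h, mem_filter.mpr ⟨mem_Gk.mpr ⟨hq.1, hq.2.1⟩, rfl⟩⟩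
  have h1 : (A.biUnion (fun v => (Gk P k).filter (fun q => q.1 = v))).card ≤
      A.card * (k + 1) := card_biUnion_le_card_mul _ _ _ (fun v _ => right_le hP k v)
  have h2 : (A.biUnion (fun v => (Gk P k).filter (fun q => q.2 = v))).card ≤
      A.card * (k + 1) := card_biUnion_le_card_mul _ _ _ (fun v _ => left_le hP k v)
  have h3 := (card_le_card hsub).trans (card_union_le _ _)
  omega

/-- **few points**: cubes -/
theorem few_cube {P : Fin n → ℝ × ℝ} (hP : GP P) (k : ℕ) (A : Finset (Fin n)) :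
    ((GA P k A).card : ℝ) ^ 3 ≤ 8000 * ((n : ℝ) ^ 2 * (A.card * (k + 1))) := by
  classical
  obtain ⟨a, ha⟩ : ∃ a : ℝ, a = (A.card : ℝ) := ⟨_, rfl⟩
  have ha0 : 0 ≤ a := by rw [ha]; exact Nat.cast_nonneg _
  have hn0 : (0 : ℝ) ≤ n := Nat.cast_nonneg _
  have hk0 : (0 : ℝ) ≤ k := Nat.cast_nonneg _
  have han : a ≤ n := by
    rw [ha]
    have := card_le_univ A
    rw [Fintype.card_fin] at this
    exact_mod_cast this
  rw [← ha]
  by_cases hc : a * (k + 1) < n
  · have h := trivial_le hP k A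
    have h' : ((GA P k A).card : ℝ) ≤ 2 * (a * (k + 1)) := by rw [ha]; exact_mod_cast h
    have h2 : ((GA P k A).card : ℝ) ^ 3 ≤ (2 * (a * (k + 1))) ^ 3 :=
      pow_le_pow_left₀ (Nat.cast_nonneg _) h' 3
    have h0 : 0 ≤ a * (k + 1) := by positivity
    have h3 : (a * (k + 1)) ^ 2 ≤ (n : ℝ) ^ 2 := pow_le_pow_left₀ h0 hc.le 2
    have h4 : (a * (k + 1)) ^ 2 * (a * (k + 1)) ≤ (n : ℝ) ^ 2 * (a * (k + 1)) :=
      mul_le_mul_of_nonneg_right h3 h0
    have h5 : 0 ≤ (n : ℝ) ^ 2 * (a * (k + 1)) := by positivity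
    nlinarith
  · push Not at hc
    set G1 := (GA P k A).filter (fun q => ¬ (q.1 ∈ A ∧ q.2 ∈ A)) with hG1
    set G2 := (GA P k A).filter (fun q => q.1 ∈ A ∧ q.2 ∈ A) with hG2
    have hsub1 : G1 ⊆ Gk P k := by
      intro q hq
      rw [hG1, mem_filter, mem_GA] at hq
      exact mem_Gk.mpr ⟨hq.1.1, hq.1.2.1⟩
    have hsub2 : G2 ⊆ Gk P k := by
      intro q hq
      rw [hG2, mem_filter, mem_GA] at hq
      exact mem_Gk.mpr ⟨hq.1.1, hq.1.2.1⟩
    have hX1 := X_le hP k hsub1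
    have hX2 := X_le hP k hsub2
    have t1 := one_le hP A G1 (hsub1.trans (Gk_sub P k)) (fun q hq => by
      rw [hG1, mem_filter, mem_GA] at hq
      by_cases h1 : q.1 ∈ A
      · exact Or.inl ⟨h1, fun h2 => hq.2 ⟨h1, h2⟩⟩
      · rcases hq.1.2.2 with h | h
        · exact absurd h h1
        · exact Or.inr ⟨h1, h⟩)
    have t2 := two_le hP A G2 (hsub2.trans (Gk_sub P k)) (fun q hq => by
      rw [hG2, mem_filter] at hq
      exact hq.2)
    have hcard : (GA P k A).card = G2.card + G1.card :=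
      (card_filter_add_card_filter_not (s := GA P k A) (fun q => q.1 ∈ A ∧ q.2 ∈ A)).symm
    obtain ⟨g1, hg1⟩ : ∃ g : ℝ, g = (G1.card : ℝ) := ⟨_, rfl⟩
    obtain ⟨g2, hg2⟩ : ∃ g : ℝ, g = (G2.card : ℝ) := ⟨_, rfl⟩
    obtain ⟨Y, hY⟩ : ∃ Y : ℝ, Y = (n : ℝ) ^ 2 * (a * (k + 1)) := ⟨_, rfl⟩
    rw [← hg1, ← ha] at t1
    rw [← hg2, ← ha] at t2
    have hg10 : 0 ≤ g1 := by rw [hg1]; exact Nat.cast_nonneg _
    have hg20 : 0 ≤ g2 := by rw [hg2]; exact Nat.cast_nonneg _
    have hY0 : 0 ≤ Y := by rw [hY]; positivity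
    have hYn : (n : ℝ) ^ 3 ≤ Y := by
      rw [hY]
      calc (n : ℝ) ^ 3 = n ^ 2 * n := by ring
        _ ≤ _ := mul_le_mul_of_nonneg_left hc (by positivity)
    have b1 : g1 ^ 3 ≤ 1728 * Y := by
      rcases t1 with h | h
      · have : g1 ^ 3 ≤ (12 * n) ^ 3 := pow_le_pow_left₀ hg10 h.le 3
        nlinarith
      · have h2 : 288 * ((Xs P G1).card : ℝ) * (a * n) ≤ 288 * (6 * n * (k + 1)) * (a * n) := by
          gcongr
        have h3 : 288 * (6 * (n : ℝ) * (k + 1)) * (a * n) = 1728 * Y := by rw [hY]; ring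
        linarith
    have b2 : g2 ^ 3 ≤ 512 * Y := by
      rcases t2 with h | h
      · have h2 : g2 ^ 3 ≤ (6 * n) ^ 3 := pow_le_pow_left₀ hg20 (by linarith) 3
        nlinarith
      · have h2 : 72 * ((Xs P G2).card : ℝ) * a ^ 2 ≤ 72 * (6 * n * (k + 1)) * a ^ 2 := by
          gcongr
        have h3 : 72 * (6 * (n : ℝ) * (k + 1)) * a ^ 2 ≤ 432 * Y := by
          rw [hY]
          have : a * (a * ((k : ℝ) + 1) * n) ≤ n * (a * ((k : ℝ) + 1) * n) :=
            mul_le_mul_of_nonneg_right han (by positivity)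
          nlinarith
        linarith
    rw [hcard]
    push_cast
    rw [← hg1, ← hg2, ← hY]
    -- (g2 + g1)^3 ≤ (8 + 12)^3 Y
    obtain ⟨y, hy0, hy⟩ : ∃ y : ℝ, 0 ≤ y ∧ y ^ 3 = Y := by
      refine ⟨Y ^ (1 / 3 : ℝ), Real.rpow_nonneg hY0 _, ?_⟩
      rw [← Real.rpow_natCast, ← Real.rpow_mul hY0]
      norm_num
    have c1 : g1 ≤ 12 * y := by
      refine le_of_pow_le_pow_left₀ (n := 3) (by norm_num) (by positivity) ?_
      rw [mul_pow, hy]; linarith
    have c2 : g2 ≤ 8 * y := by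
      refine le_of_pow_le_pow_left₀ (n := 3) (by norm_num) (by positivity) ?_
      rw [mul_pow, hy]; linarith
    calc (g2 + g1) ^ 3 ≤ (20 * y) ^ 3 := pow_le_pow_left₀ (by positivity) (by linarith) 3
      _ = 8000 * Y := by rw [mul_pow, hy]; norm_num

end Pool.Agent.TH529.RD
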