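import Pool.Agent.H189R2.Iid.Plane
import Pool.Agent.W296.HL3

/-! Every finite family of points is a limit of families in general position in a strong sense. -/

set_option autoImplicit false

namespace Pool.Agent.TH529.RD

open Finset Filter Topology Pool.Agent.H189R2.Iid Pool.Agent.W296.HL

variable {n : ℕ}

theorem two_pow_aux {i j r s : ℕ} (hij : i < j) (hrs : r < s)
    (h : 2 ^ i + 2 ^ j = 2 ^ r + 2 ^ s) : i = r ∧ j = s := by
  have key : ∀ {i j r s : ℕ}, i < j → r < s → 2 ^ i + 2 ^ j = 2 ^ r + 2 ^ s → ¬ i < r := by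
    intro i j r s hij hrs h hir
    obtain ⟨u, rfl⟩ : ∃ u, j = i + 1 + u := ⟨j - (i + 1), by omega⟩
    obtain ⟨v, rfl⟩ : ∃ v, r = i + 1 + v := ⟨r - (i + 1), by omega⟩
    obtain ⟨w, rfl⟩ : ∃ w, s = i + 1 + w := ⟨s - (i + 1), by omega⟩
    have hpos : 0 < 2 ^ i := by positivity
    have h' : 2 ^ i * (1 + 2 * 2 ^ u) = 2 ^ i * (2 * 2 ^ v + 2 * 2 ^ w) := by
      calc 2 ^ i * (1 + 2 * 2 ^ u) = 2 ^ i + 2 ^ (i + 1 + u) := by ring
        _ = _ := by rw [h]; ring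
    have h2 := Nat.eq_of_mul_eq_mul_left hpos h'
    omega
  have h1 := key hij hrs h
  have h2 := key hrs hij h.symm
  have h3 : i = r := by omega
  subst h3
  have h4 : 2 ^ j = 2 ^ s := by omega
  exact ⟨rfl, Nat.pow_right_injective le_rfl h4⟩

theorem two_pow_pair {i j r s : ℕ} (hij : i ≠ j) (hrs : r ≠ s)
    (h : (2 : ℝ) ^ i + 2 ^ j = 2 ^ r + 2 ^ s) : (i = r ∧ j = s) ∨ (i = s ∧ j = r) := by
  have h' : 2 ^ i + 2 ^ j = 2 ^ r + 2 ^ s := by exact_mod_cast h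
  rcases lt_or_gt_of_ne hij with h1 | h1 <;> rcases lt_or_gt_of_ne hrs with h2 | h2
  · exact Or.inl (two_pow_aux h1 h2 h')
  · have := two_pow_aux h1 h2 (by omega)
    exact Or.inr this
  · have := two_pow_aux h1 h2 (by omega)
    exact Or.inr ⟨this.2, this.1⟩
  · have := two_pow_aux h1 h2 (by omega)
    exact Or.inl ⟨this.2, this.1⟩

theorem poly2 (a b c : ℝ) (h : b ≠ 0 ∨ c ≠ 0) :
    ∀ᶠ ε in 𝓝[>] (0 : ℝ), a + b * ε + c * ε ^ 2 ≠ 0 := by
  set p : Polynomial ℝ := Polynomial.C a + Polynomial.C b * Polynomial.X +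
    Polynomial.C c * Polynomial.X ^ 2 with hp
  have hp0 : p ≠ 0 := by
    intro h0
    have h1 := congrArg (fun q => Polynomial.coeff q 1) h0
    have h2 := congrArg (fun q => Polynomial.coeff q 2) h0
    simp [hp, Polynomial.coeff_X, Polynomial.coeff_C, Polynomial.coeff_X_pow] at h1 h2
    rcases h with h | h
    · exact h h1
    · exact h h2
  have hfin : {x | Polynomial.IsRoot p x}.Finite := Polynomial.finite_setOfPred_isRoot hp0
  have h1 : ∀ᶠ ε in cofinite, ε ∉ {x | Polynomial.IsRoot p x} := hfin.eventually_cofinite_notMem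
  have h2 : 𝓝[>] (0 : ℝ) ≤ cofinite := (nhdsGT_le_nhdsNE 0).trans (nhdsNE_le_cofinite 0)
  filter_upwards [h2 h1] with ε hε h3
  apply hε
  show p.eval ε = 0
  rw [hp]
  simpa using h3

/-- the perturbed points -/
noncomputable def Pe (f : Fin n → ℝ × ℝ) (ε : ℝ) (i : Fin n) : ℝ × ℝ :=
  ((f i).1 + ε * 2 ^ (i : ℕ), (f i).2 + ε * 4 ^ (i : ℕ))

theorem Pe_zero (f : Fin n → ℝ × ℝ) (i : Fin n) : Pe f 0 i = f i := by
  unfold Pe; simp

theorem exists_GP (f : Fin n → ℝ × ℝ) : ∃ P : Fin n → ℝ × ℝ, GP P ∧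
    (∀ i j, (f i).1 < (f j).1 → (P i).1 < (P j).1) ∧
    ∀ i j l, cr (f i) (f j) (f l) < 0 → cr (P i) (P j) (P l) < 0 := by
  have hle : 𝓝[>] (0 : ℝ) ≤ 𝓝 0 := nhdsWithin_le_nhds
  have c1 : ∀ i, Continuous (fun ε => (Pe f ε i).1) := by intro i; unfold Pe; fun_prop
  have c2 : ∀ i, Continuous (fun ε => (Pe f ε i).2) := by intro i; unfold Pe; fun_prop
  have e1 : ∀ᶠ ε in 𝓝[>] (0 : ℝ), ∀ i j, (f i).1 < (f j).1 → (Pe f ε i).1 < (Pe f ε j).1 := by
    rw [eventually_all]; intro i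
    rw [eventually_all]; intro j
    by_cases h : (f i).1 < (f j).1
    · have := (c1 i).continuousAt.eventually_lt (c1 j).continuousAt (x₀ := 0)
        (by simpa [Pe_zero] using h)
      exact hle (this.mono (fun _ h _ => h))
    · exact Eventually.of_forall (fun _ h' => absurd h' h)
  have e2 : ∀ᶠ ε in 𝓝[>] (0 : ℝ), ∀ i j l, cr (f i) (f j) (f l) < 0 →
      cr (Pe f ε i) (Pe f ε j) (Pe f ε l) < 0 := by
    rw [eventually_all]; intro i
    rw [eventually_all]; intro j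
    rw [eventually_all]; intro l
    by_cases h : cr (f i) (f j) (f l) < 0
    · have hc : Continuous (fun ε => cr (Pe f ε i) (Pe f ε j) (Pe f ε l)) := by
        unfold cr
        exact (((c1 j).sub (c1 i)).mul ((c2 l).sub (c2 i))).sub
          (((c2 j).sub (c2 i)).mul ((c1 l).sub (c1 i)))
      have := hc.continuousAt.eventually_lt (continuousAt_const (y := (0 : ℝ))) (x₀ := 0)
        (by simpa [Pe_zero] using h)
      exact hle (this.mono (fun _ h _ => h))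
    · exact Eventually.of_forall (fun _ h' => absurd h' h)
  have e3 : ∀ᶠ ε in 𝓝[>] (0 : ℝ), ∀ i j, i ≠ j → (Pe f ε i).1 ≠ (Pe f ε j).1 := by
    rw [eventually_all]; intro i
    rw [eventually_all]; intro j
    by_cases h : i = j
    · exact Eventually.of_forall (fun _ h' => absurd h h')
    have hne : (2 : ℝ) ^ (i : ℕ) - 2 ^ (j : ℕ) ≠ 0 := by
      intro h0
      apply h
      have h1 : (2 : ℝ) ^ (i : ℕ) = 2 ^ (j : ℕ) := by linarith
      have h2 : 2 ^ (i : ℕ) = 2 ^ (j : ℕ) := by exact_mod_cast h1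
      exact Fin.ext (Nat.pow_right_injective le_rfl h2)
    filter_upwards [poly2 ((f i).1 - (f j).1) ((2 : ℝ) ^ (i : ℕ) - 2 ^ (j : ℕ)) 0 (Or.inl hne)]
      with ε hε _ h1
    apply hε
    unfold Pe at h1
    simp only at h1
    linear_combination h1
  have e4 : ∀ᶠ ε in 𝓝[>] (0 : ℝ), ∀ i j r s : Fin n, i ≠ j → r ≠ s → ¬ (i = r ∧ j = s) →
      ¬ (i = s ∧ j = r) → ((Pe f ε j).2 - (Pe f ε i).2) * ((Pe f ε r).1 - (Pe f ε s).1) -
        ((Pe f ε s).2 - (Pe f ε r).2) * ((Pe f ε i).1 - (Pe f ε j).1) ≠ 0 := by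
    rw [eventually_all]; intro i
    rw [eventually_all]; intro j
    rw [eventually_all]; intro r
    rw [eventually_all]; intro s
    by_cases h : i ≠ j ∧ r ≠ s ∧ ¬ (i = r ∧ j = s) ∧ ¬ (i = s ∧ j = r)
    swap
    · exact Eventually.of_forall (fun _ h1 h2 h3 h4 => absurd ⟨h1, h2, h3, h4⟩ h)
    obtain ⟨h1, h2, h3, h4⟩ := h
    have p1 : (2 : ℝ) ^ (i : ℕ) - 2 ^ (j : ℕ) ≠ 0 := by
      intro h0
      apply h1
      have a1 : (2 : ℝ) ^ (i : ℕ) = 2 ^ (j : ℕ) := by linarith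
      have a2 : 2 ^ (i : ℕ) = 2 ^ (j : ℕ) := by exact_mod_cast a1
      exact Fin.ext (Nat.pow_right_injective le_rfl a2)
    have p2 : (2 : ℝ) ^ (r : ℕ) - 2 ^ (s : ℕ) ≠ 0 := by
      intro h0
      apply h2
      have a1 : (2 : ℝ) ^ (r : ℕ) = 2 ^ (s : ℕ) := by linarith
      have a2 : 2 ^ (r : ℕ) = 2 ^ (s : ℕ) := by exact_mod_cast a1
      exact Fin.ext (Nat.pow_right_injective le_rfl a2)
    have p3 : ((2 : ℝ) ^ (r : ℕ) + 2 ^ (s : ℕ)) - (2 ^ (i : ℕ) + 2 ^ (j : ℕ)) ≠ 0 := by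
      intro h0
      have a1 : (2 : ℝ) ^ (i : ℕ) + 2 ^ (j : ℕ) = 2 ^ (r : ℕ) + 2 ^ (s : ℕ) := by linarith
      rcases two_pow_pair (fun h => h1 (Fin.ext h)) (fun h => h2 (Fin.ext h)) a1 with h | h
      · exact h3 ⟨Fin.ext h.1, Fin.ext h.2⟩
      · exact h4 ⟨Fin.ext h.1, Fin.ext h.2⟩
    have hq : ∀ k : ℕ, (4 : ℝ) ^ k = (2 ^ k) ^ 2 := by
      intro k
      rw [← pow_mul, mul_comm, pow_mul]; norm_num
    have hlead : ((2 : ℝ) ^ (i : ℕ) - 2 ^ (j : ℕ)) * (2 ^ (r : ℕ) - 2 ^ (s : ℕ)) *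
        ((2 ^ (r : ℕ) + 2 ^ (s : ℕ)) - (2 ^ (i : ℕ) + 2 ^ (j : ℕ))) ≠ 0 :=
      mul_ne_zero (mul_ne_zero p1 p2) p3
    filter_upwards [poly2
      (((f j).2 - (f i).2) * ((f r).1 - (f s).1) - ((f s).2 - (f r).2) * ((f i).1 - (f j).1))
      (((f j).2 - (f i).2) * (2 ^ (r : ℕ) - 2 ^ (s : ℕ)) +
        ((2 ^ (j : ℕ)) ^ 2 - (2 ^ (i : ℕ)) ^ 2) * ((f r).1 - (f s).1) -
        (((f s).2 - (f r).2) * (2 ^ (i : ℕ) - 2 ^ (j : ℕ)) +
        ((2 ^ (s : ℕ)) ^ 2 - (2 ^ (r : ℕ)) ^ 2) * ((f i).1 - (f j).1))) _ (Or.inr hlead)]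
      with ε hε _ _ _ _ h0
    apply hε
    unfold Pe at h0
    simp only [hq] at h0
    linear_combination h0
  obtain ⟨ε, h1, h2, h3, h4⟩ := (e1.and (e2.and (e3.and e4))).exists
  refine ⟨Pe f ε, ⟨?_, ?_⟩, h1, h2⟩
  · intro i j h
    by_contra hne
    exact h3 i j hne h
  · intro i j r s hij hrs hX
    by_contra hcon
    have hne1 : i ≠ j := by intro h; rw [h] at hij; exact lt_irrefl _ hij
    have hne2 : r ≠ s := by intro h; rw [h] at hrs; exact lt_irrefl _ hrs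
    have hsw : ¬ (i = s ∧ j = r) := by
      rintro ⟨rfl, rfl⟩
      exact lt_asymm hij hrs
    apply h4 i j r s hne1 hne2 hcon hsw
    unfold X2 at hX
    rw [div_eq_div_iff (by linarith) (by linarith)] at hX
    linarith

/-- membership in `low` by orientation -/
theorem mem_low_iff {p q x : ℝ × ℝ} (h : q.1 < p.1) : x ∈ low p q ↔ cr q p x < 0 := by
  have hd : 0 < p.1 - q.1 := by linarith
  have hX : X2 p q * (p.1 - q.1) = q.2 - p.2 := by
    unfold X2; rw [div_mul_cancel₀ _ hd.ne']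
  have e : (x.1 * X2 p q + x.2 - Y2 p q) * (p.1 - q.1) = cr q p x := by
    unfold Y2 cr
    linear_combination (x.1 - p.1) * hX
  show x.1 * X2 p q + x.2 < Y2 p q ↔ _
  rw [← e]
  constructor
  · intro h1
    exact mul_neg_of_neg_of_pos (by linarith) hd
  · intro h1
    by_contra hcon
    push Not at hcon
    have := mul_nonneg (by linarith : 0 ≤ x.1 * X2 p q + x.2 - Y2 p q) hd.le
    linarith

end Pool.Agent.TH529.RD
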