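import Pool.Agent.TH529.RD.Sub
import Pool.Agent.TH529.RD.Pert

/-! Bisectors of the subsets of a point set. -/

set_option autoImplicit false

namespace Pool.Agent.TH529.RD

open Finset Pool.Agent.H189R2.Iid Pool.Agent.W296.HL

variable {n : ℕ}

/-- bisectors of a subset against halving pairs of the perturbed subset -/
theorem bis_le {f : Fin n ↪ ℝ × ℝ} (hf : Gen (univ.map f)) {P : Fin n → ℝ × ℝ} (hP : GP P)
    (h2 : ∀ i j l, cr (f i) (f j) (f l) < 0 → cr (P i) (P j) (P l) < 0) {a : ℕ}
    {R : Finset (Fin n)} (hR : R.card = 2 * a + 2) :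
    {L | IsBisector (R.map f) L}.ncard ≤ (HP P a R).card := by
  classical
  have hRc : (R.map f).card = 2 * a + 2 := by rw [card_map, hR]
  have hiff : ∀ i j l : Fin n, i ≠ j → (cr (P i) (P j) (P l) < 0 ↔ cr (f i) (f j) (f l) < 0) := by
    intro i j l hij
    by_cases h1 : l = i
    · subst h1
      have e1 : cr (P l) (P j) (P l) = 0 := by unfold cr; ring
      have e2 : cr (f l) (f j) (f l) = 0 := by unfold cr; ring
      rw [e1, e2]
    by_cases h3 : l = j
    · subst h3
      have e1 : cr (P i) (P l) (P l) = 0 := by unfold cr; ring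
      have e2 : cr (f i) (f l) (f l) = 0 := by unfold cr; ring
      rw [e1, e2]
    constructor
    · intro h
      by_contra hcon
      have hne := hf (f i) (mem_map_of_mem f (mem_univ i)) (f j) (mem_map_of_mem f (mem_univ j))
        (f l) (mem_map_of_mem f (mem_univ l)) (fun h => hij (f.injective h))
        (fun h => h1 (f.injective h).symm) (fun h => h3 (f.injective h).symm)
      have hpos : 0 < cr (f i) (f j) (f l) := lt_of_le_of_ne (not_lt.mp hcon) hne.symm
      have h4 := h2 j i l (by rw [cr_swap]; linarith)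
      rw [cr_swap] at h4
      linarith
    · exact h2 i j l
  have hlev : ∀ i j : Fin n, i ≠ j → (P j).1 < (P i).1 → Hv (R.map f) (f i) (f j) →
      levR P R (i, j) = a := by
    intro i j hij hx hv
    have h3 := hv.2.1
    rw [hRc] at h3
    have h4 : (2 * a + 2) / 2 - 1 = a := by omega
    rw [h4] at h3
    rw [← h3]
    unfold levR
    have e : (R.map f).filter (fun x => 0 < cr (f i) (f j) x) =
        (R.filter (fun l => P l ∈ low (P i) (P j))).map f := by
      ext x
      simp only [mem_filter, mem_map]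
      constructor
      · rintro ⟨⟨l, hl, rfl⟩, hpos⟩
        refine ⟨l, ⟨hl, ?_⟩, rfl⟩
        rw [mem_low_iff hx, hiff j i l hij.symm, cr_swap]
        linarith
      · rintro ⟨l, ⟨hl, hlow⟩, rfl⟩
        refine ⟨⟨l, hl, rfl⟩, ?_⟩
        rw [mem_low_iff hx, hiff j i l hij.symm, cr_swap] at hlow
        linarith
    rw [e, card_map]
  have hsub : HH (R.map f) ⊆ (HP P a R).image (fun q => (f q.1, f q.2)) ∪
      (HP P a R).image (fun q => (f q.2, f q.1)) := by
    rintro ⟨p, q⟩ hz
    rw [mem_HH] at hz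
    obtain ⟨hp, hq, hv⟩ := hz
    simp only [mem_map] at hp hq
    obtain ⟨i, hi, rfl⟩ := hp
    obtain ⟨j, hj, rfl⟩ := hq
    have hij : i ≠ j := fun h => hv.1 (by rw [h])
    rw [mem_union, mem_image, mem_image]
    have hne : (P i).1 ≠ (P j).1 := fun h => hij (hP.1 i j h)
    rcases lt_or_gt_of_ne hne with h | h
    · right
      refine ⟨(j, i), ?_, rfl⟩
      rw [mem_HP]
      exact ⟨h, hj, hi, hlev j i hij.symm h hv.symm⟩
    · left
      refine ⟨(i, j), ?_, rfl⟩
      rw [mem_HP]
      exact ⟨h, hi, hj, hlev i j hij h hv⟩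
  have h5 := (card_le_card hsub).trans (card_union_le _ _)
  have h6 : ((HP P a R).image (fun q => (f q.1, f q.2))).card ≤ (HP P a R).card := card_image_le
  have h7 : ((HP P a R).image (fun q => (f q.2, f q.1))).card ≤ (HP P a R).card := card_image_le
  have h8 := two_mul_ncard_le (R.map f)
  omega

theorem exists_emb (P : Finset (ℝ × ℝ)) : ∃ f : Fin P.card ↪ ℝ × ℝ, univ.map f = P := by
  classical
  refine ⟨(P.equivFin.symm.toEmbedding).trans (Function.Embedding.subtype _), ?_⟩
  ext x
  rw [mem_map]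
  constructor
  · rintro ⟨i, _, rfl⟩
    exact (P.equivFin.symm i).2
  · intro hx
    refine ⟨P.equivFin ⟨x, hx⟩, mem_univ _, ?_⟩
    simp

theorem sum_le_total {P : Finset (ℝ × ℝ)} (hP : Gen P) (a : ℕ) :
    ∃ Q : Fin P.card → ℝ × ℝ, GP Q ∧
      ∑ R ∈ powersetCard (2 * a + 2) P, {L | IsBisector R L}.ncard ≤
        ∑ R ∈ powersetCard (2 * a + 2) (univ : Finset (Fin P.card)), (HP Q a R).card := by
  classical
  obtain ⟨f, hf⟩ := exists_emb P
  obtain ⟨Q, hQ, -, hQ2⟩ := exists_GP (n := P.card) f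
  refine ⟨Q, hQ, ?_⟩
  have hfG : Gen (univ.map f) := by rw [hf]; exact hP
  have e : powersetCard (2 * a + 2) P =
      (powersetCard (2 * a + 2) (univ : Finset (Fin P.card))).map (mapEmbedding f).toEmbedding := by
    rw [← powersetCard_map, hf]
  rw [e, sum_map]
  apply sum_le_sum
  intro R hR
  rw [mem_powersetCard] at hR
  exact bis_le hfG hQ hQ2 hR.2

/-- sixth powers -/
theorem main_six {P : Finset (ℝ × ℝ)} (hP : Gen P) {m : ℕ} (hm : Even m) (hmP : m ≤ P.card) :
    ((∑ R ∈ powersetCard m P, {L | IsBisector R L}.ncard : ℕ) : ℝ) ^ 6 *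
      ((P.card : ℝ) - m + 1) ≤
      20 ^ 6 * (m : ℝ) ^ 7 * P.card * ((P.card.choose m : ℕ) : ℝ) ^ 6 := by
  classical
  obtain ⟨k, hk⟩ := hm
  rcases Nat.lt_or_ge k 1 with h0 | h1
  · have hk0 : k = 0 := by omega
    subst hk0
    have hm0 : m = 0 := by omega
    subst hm0
    have : ∑ R ∈ powersetCard 0 P, {L | IsBisector R L}.ncard = 0 := by
      rw [powersetCard_zero, sum_singleton]
      have : {L | IsBisector (∅ : Finset (ℝ × ℝ)) L} = ∅ := by
        ext L
        simp only [Set.mem_ofPred_eq, Set.mem_empty_iff_false, iff_false]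
        rintro ⟨a, b, c, _, _, ⟨p, hp, _⟩, _⟩
        simp at hp
      rw [this]; simp
    rw [this]; simp
  · obtain ⟨a, rfl⟩ : ∃ a, k = a + 1 := ⟨k - 1, by omega⟩
    have hma : m = 2 * a + 2 := by omega
    subst hma
    obtain ⟨Q, hQ, hle⟩ := sum_le_total hP a
    obtain ⟨H, hH⟩ : ∃ H, H = ∑ R ∈ powersetCard (2 * a + 2) P, {L | IsBisector R L}.ncard :=
      ⟨_, rfl⟩
    obtain ⟨H', hH'⟩ : ∃ H', H' = ∑ R ∈ powersetCard (2 * a + 2) (univ : Finset (Fin P.card)),
      (HP Q a R).card := ⟨_, rfl⟩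
    rw [← hH, ← hH'] at hle
    rw [← hH]
    have hHH : (H : ℝ) ≤ H' := by exact_mod_cast hle
    have hH0 : (0 : ℝ) ≤ H := Nat.cast_nonneg _
    have hmr : ((2 * a + 2 : ℕ) : ℝ) ≤ P.card := by exact_mod_cast hmP
    rw [Nat.cast_add, Nat.cast_mul] at hmr ⊢
    rcases Nat.eq_zero_or_pos a with ha | ha
    · subst ha
      -- two points
      have h3 : H' ≤ P.card.choose 2 := by
        have h4 := total_le (P := Q) 0
        have : H' ≤ ∑ R ∈ powersetCard (2 * 0 + 2) (univ : Finset (Fin P.card)), 1 := by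
          rw [hH']
          apply sum_le_sum
          intro R hR
          rw [mem_powersetCard] at hR
          rw [card_le_one]
          intro q hq q' hq'
          rw [mem_HP] at hq hq'
          obtain ⟨x, y, hxy, hRe⟩ := card_eq_two.mp hR.2
          rw [hRe] at hq hq'
          have hne : q.1 ≠ q.2 := by
            intro h; rw [h] at hq; exact lt_irrefl _ hq.1
          have hne' : q'.1 ≠ q'.2 := by
            intro h; rw [h] at hq'; exact lt_irrefl _ hq'.1
          simp only [mem_insert, mem_singleton] at hq hq'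
          obtain ⟨a1, a2, a3, -⟩ := hq
          obtain ⟨b1, b2, b3, -⟩ := hq'
          rcases a2 with a2 | a2 <;> rcases a3 with a3 | a3 <;> rcases b2 with b2 | b2 <;>
            rcases b3 with b3 | b3
          all_goals first
            | exact absurd (a2.trans a3.symm) hne
            | exact absurd (b2.trans b3.symm) hne'
            | exact Prod.ext (a2.trans b2.symm) (a3.trans b3.symm)
            | (exfalso
               rw [a2, a3] at a1
               rw [b2, b3] at b1
               exact lt_asymm a1 b1)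
        rw [sum_const, card_powersetCard, card_univ, Fintype.card_fin, smul_eq_mul, mul_one] at this
        exact this
      have h3r : (H' : ℝ) ≤ (P.card.choose 2 : ℕ) := by exact_mod_cast h3
      have hc0 : (0 : ℝ) ≤ (P.card.choose 2 : ℕ) := Nat.cast_nonneg _
      have h5 : (H : ℝ) ^ 6 ≤ ((P.card.choose 2 : ℕ) : ℝ) ^ 6 :=
        pow_le_pow_left₀ hH0 (hHH.trans h3r) 6
      have h6 : (0 : ℝ) ≤ ((P.card.choose 2 : ℕ) : ℝ) ^ 6 := by positivity
      have hN0 : (0 : ℝ) ≤ P.card := Nat.cast_nonneg _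
      have hmr2 : (2 : ℝ) ≤ P.card := by
        have := hmP
        norm_num at this
        exact_mod_cast this
      push_cast
      norm_num
      calc (H : ℝ) ^ 6 * (P.card - 2 + 1) ≤ ((P.card.choose 2 : ℕ) : ℝ) ^ 6 * P.card := by
            exact mul_le_mul h5 (by linarith) (by linarith) h6
        _ ≤ _ := by nlinarith [mul_nonneg h6 hN0]
    · have h7 := total_six hQ ha hmP
      rw [← hH'] at h7
      have h8 : (H : ℝ) ^ 6 ≤ (H' : ℝ) ^ 6 := pow_le_pow_left₀ hH0 hHH 6
      push_cast at hmr ⊢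
      have h9 : (0 : ℝ) ≤ (P.card : ℝ) - (2 * a + 2) + 1 := by linarith
      calc (H : ℝ) ^ 6 * ((P.card : ℝ) - (2 * a + 2) + 1) ≤
            (H' : ℝ) ^ 6 * ((P.card : ℝ) - (2 * a + 2) + 2) := by
            exact mul_le_mul h8 (by linarith) h9 (pow_nonneg (Nat.cast_nonneg _) 6)
        _ ≤ _ := h7

end Pool.Agent.TH529.RD
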