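import Mathlib

/-! Sums and maxima of products of two binomial coefficients. -/

set_option autoImplicit false

namespace Pool.Agent.TH529.RD

open Finset

theorem sum_choose (a : ℕ) : ∀ (M b : ℕ),
    ∑ j ∈ range (M + 1), j.choose a * (M - j).choose b = (M + 1).choose (a + b + 1) := by
  intro M
  induction M with
  | zero =>
    intro b
    rw [sum_range_one]
    rcases Nat.eq_zero_or_pos a with ha | ha
    · rcases Nat.eq_zero_or_pos b with hb | hb
      · subst ha hb; simp
      · subst ha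
        rw [Nat.sub_zero, Nat.choose_eq_zero_of_lt hb, mul_zero,
          Nat.choose_eq_zero_of_lt (by omega)]
    · rw [Nat.choose_eq_zero_of_lt ha, zero_mul, Nat.choose_eq_zero_of_lt (by omega)]
  | succ M ih =>
    intro b
    rcases b with _ | b
    · rw [sum_range_succ]
      have h := ih 0
      simp only [Nat.choose_zero_right, mul_one, add_zero] at h ⊢
      rw [h, Nat.choose_succ_succ (M + 1) a, add_comm]
    · rw [sum_range_succ, Nat.sub_self, Nat.choose_zero_succ, mul_zero, add_zero]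
      have h1 := ih b
      have h2 := ih (b + 1)
      have e : ∀ j ∈ range (M + 1), j.choose a * (M + 1 - j).choose (b + 1) =
          j.choose a * (M - j).choose b + j.choose a * (M - j).choose (b + 1) := by
        intro j hj
        rw [mem_range] at hj
        have : M + 1 - j = (M - j) + 1 := by omega
        rw [this, Nat.choose_succ_succ, mul_add]
      rw [sum_congr rfl e, sum_add_distrib, h1, h2]
      have : a + (b + 1) + 1 = (a + b + 1) + 1 := by omega
      rw [this, Nat.choose_succ_succ (M + 1) (a + b + 1)]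

/-- the weight -/
def bw (M a j : ℕ) : ℕ := j.choose a * (M - j).choose a

theorem bw_step {M a j : ℕ} (hj : j < M) :
    bw M a (j + 1) * ((j + 1 - a) * (M - j)) = bw M a j * ((j + 1) * (M - j - a)) := by
  unfold bw
  have h1 := Nat.choose_mul_succ_eq j a
  have h2 := Nat.choose_mul_succ_eq (M - (j + 1)) a
  have e : M - (j + 1) + 1 = M - j := by omega
  rw [e] at h2
  calc (j + 1).choose a * (M - (j + 1)).choose a * ((j + 1 - a) * (M - j)) =
        ((j + 1).choose a * (j + 1 - a)) * ((M - (j + 1)).choose a * (M - j)) := by ring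
    _ = (j.choose a * (j + 1)) * ((M - j).choose a * (M - j - a)) := by rw [← h1, h2]
    _ = _ := by ring

theorem bw_symm {M a j : ℕ} (hj : j ≤ M) : bw M a (M - j) = bw M a j := by
  unfold bw
  have : M - (M - j) = j := by omega
  rw [this, mul_comm]

theorem bw_anti {M a j : ℕ} (ha : 2 * a ≤ M) (hj : j < M) (h : M ≤ 2 * j + 1) :
    bw M a (j + 1) ≤ bw M a j := by
  have hs := bw_step (a := a) hj
  have hja : a ≤ j := by omega
  have hD : 0 < (j + 1 - a) * (M - j) := Nat.mul_pos (by omega) (by omega)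
  have hE : (j + 1) * (M - j - a) ≤ (j + 1 - a) * (M - j) := by
    obtain ⟨u, rfl⟩ : ∃ u, j = a + u := ⟨j - a, by omega⟩
    obtain ⟨v, hv⟩ : ∃ v, M = a + u + v := ⟨M - (a + u), by omega⟩
    have e1 : a + u + 1 - a = u + 1 := by omega
    have e2 : M - (a + u) = v := by omega
    rw [e1, e2]
    by_cases hva : v ≤ a
    · have : v - a = 0 := by omega
      rw [this, mul_zero]; exact Nat.zero_le _
    · obtain ⟨z, rfl⟩ : ∃ z, v = a + z := ⟨v - a, by omega⟩
      have : a + z - a = z := by omega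
      rw [this]
      have hz : z ≤ u + 1 := by omega
      nlinarith
  have h1 : bw M a (j + 1) * ((j + 1 - a) * (M - j)) ≤ bw M a j * ((j + 1 - a) * (M - j)) := by
    rw [hs]; exact Nat.mul_le_mul_left _ hE
  exact Nat.le_of_mul_le_mul_right h1 hD

theorem bw_le_mid {M a : ℕ} (ha : 2 * a ≤ M) {j : ℕ} (hj : (M + 1) / 2 ≤ j) (hjM : j ≤ M) :
    bw M a j ≤ bw M a ((M + 1) / 2) := by
  induction j, hj using Nat.le_induction with
  | base => exact le_rfl
  | succ j hj ih => exact (bw_anti ha (by omega) (by omega)).trans (ih (by omega))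

theorem bw_le {M a : ℕ} (ha1 : 1 ≤ a) (ha : 2 * a ≤ M) (j : ℕ) :
    bw M a j ≤ bw M a ((M + 1) / 2) := by
  by_cases hjM : j ≤ M
  · by_cases h : (M + 1) / 2 ≤ j
    · exact bw_le_mid ha h hjM
    · rw [← bw_symm hjM]
      exact bw_le_mid ha (by omega) (by omega)
  · have : M - j = 0 := by omega
    unfold bw
    rw [this, Nat.choose_eq_zero_of_lt (by omega : 0 < a), mul_zero]
    exact Nat.zero_le _

/-- near the middle the weights are large -/
theorem bw_lower {M a : ℕ} (ha1 : 1 ≤ a) (ha : 2 * a ≤ M) : ∀ s : ℕ, 4 * s ≤ M →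
    (bw M a ((M + 1) / 2) : ℝ) * (((M : ℝ) - 2 * a + 2) * M - 8 * a * (s * (s + 1))) ≤
      (bw M a ((M + 1) / 2 + s) : ℝ) * (((M : ℝ) - 2 * a + 2) * M) := by
  intro s
  induction s with
  | zero => intro _; simp
  | succ s ih =>
    intro hs
    have ih' := ih (by omega)
    set j := (M + 1) / 2 + s with hj
    have hjM : j < M := by omega
    have hjl : M ≤ 2 * j := by omega
    have hja : a ≤ j := by omega
    have hstep := bw_step (a := a) hjM
    have hmax : bw M a j ≤ bw M a ((M + 1) / 2) := bw_le ha1 ha j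
    have hanti : bw M a (j + 1) ≤ bw M a j := bw_anti ha hjM (by omega)
    have hMr : (2 * (a : ℝ)) ≤ M := by exact_mod_cast ha
    have ha0 : (1 : ℝ) ≤ a := by exact_mod_cast ha1
    have hs0 : (0 : ℝ) ≤ s := Nat.cast_nonneg s
    have hmaxR : (bw M a j : ℝ) ≤ bw M a ((M + 1) / 2) := by exact_mod_cast hmax
    have hantiR : (bw M a (j + 1) : ℝ) ≤ bw M a j := by exact_mod_cast hanti
    have hw0 : (0 : ℝ) ≤ bw M a j := Nat.cast_nonneg _
    have c1 : ((j + 1 - a : ℕ) : ℝ) = (j : ℝ) + 1 - a := by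
      rw [Nat.cast_sub (by omega)]; push_cast; ring
    have c2 : ((M - j : ℕ) : ℝ) = (M : ℝ) - j := Nat.cast_sub hjM.le
    -- the step as a difference
    have hjr : (M : ℝ) ≤ 2 * j := by exact_mod_cast hjl
    have hjr2 : 2 * (j : ℝ) ≤ M + 1 + 2 * s := by
      have : 2 * j ≤ M + 1 + 2 * s := by omega
      exact_mod_cast this
    have hsM : 4 * (s : ℝ) + 4 ≤ M := by
      have : 4 * s + 4 ≤ M := by omega
      exact_mod_cast this
    have hdiff : ((bw M a j : ℝ) - bw M a (j + 1)) * (((j : ℝ) + 1 - a) * (M - j)) ≤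
        bw M a j * (a * (2 * j + 1 - M)) := by
      by_cases hva : a ≤ M - j
      · have c3 : ((M - j - a : ℕ) : ℝ) = (M : ℝ) - j - a := by
          rw [Nat.cast_sub hva, c2]
        have h := congrArg (fun x : ℕ => (x : ℝ)) hstep
        simp only [Nat.cast_mul, c1, c2, c3] at h
        push_cast at h
        nlinarith
      · have c4 : (M : ℝ) - j ≤ a := by
          rw [← c2]; exact_mod_cast (by omega : M - j ≤ a)
        have c5 : 0 ≤ (M : ℝ) - j := by rw [← c2]; exact Nat.cast_nonneg _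
        have c6 : (0 : ℝ) ≤ (j : ℝ) + 1 - a := by
          rw [← c1]; exact Nat.cast_nonneg _
        have c7 : ((j : ℝ) + 1 - a) * (M - j) ≤ a * (2 * j + 1 - M) := by
          -- (j + 1) (M - j - a) ≤ 0
          have : ((j : ℝ) + 1) * (M - j - a) ≤ 0 :=
            mul_nonpos_of_nonneg_of_nonpos (by positivity) (by linarith)
          nlinarith
        have c8 : 0 ≤ (bw M a j : ℝ) - bw M a (j + 1) := by linarith
        have c9 : (bw M a j : ℝ) - bw M a (j + 1) ≤ bw M a j := by
          have : (0 : ℝ) ≤ bw M a (j + 1) := Nat.cast_nonneg _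
          linarith
        calc _ ≤ (bw M a j : ℝ) * (((j : ℝ) + 1 - a) * (M - j)) :=
              mul_le_mul_of_nonneg_right c9 (mul_nonneg c6 c5)
          _ ≤ _ := mul_le_mul_of_nonneg_left c7 hw0
    have hd0 : 0 ≤ (bw M a j : ℝ) - bw M a (j + 1) := by linarith
    have g1 : ((M : ℝ) - 2 * a + 2) / 2 ≤ (j : ℝ) + 1 - a := by linarith
    have g2 : (M : ℝ) / 4 ≤ M - j := by linarith
    have g3 : 2 * (j : ℝ) + 1 - M ≤ 2 * (s + 1) := by linarith
    have g4 : ((bw M a j : ℝ) - bw M a (j + 1)) * (((M : ℝ) - 2 * a + 2) * M) ≤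
        16 * a * (s + 1) * bw M a j := by
      have h1 : ((M : ℝ) - 2 * a + 2) / 2 * (M / 4) ≤ ((j : ℝ) + 1 - a) * (M - j) :=
        mul_le_mul g1 g2 (by positivity) (by linarith)
      have h2 := mul_le_mul_of_nonneg_left h1 hd0
      have h3 : (bw M a j : ℝ) * (a * (2 * j + 1 - M)) ≤ bw M a j * (a * (2 * (s + 1))) := by
        apply mul_le_mul_of_nonneg_left _ hw0
        exact mul_le_mul_of_nonneg_left g3 (by linarith)
      have h4 := h2.trans (hdiff.trans h3)
      nlinarith
    have g5 : 16 * (a : ℝ) * (s + 1) * bw M a j ≤ 16 * a * (s + 1) * bw M a ((M + 1) / 2) :=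
      mul_le_mul_of_nonneg_left hmaxR (by positivity)
    have e : (M + 1) / 2 + (s + 1) = j + 1 := by omega
    rw [e]
    push_cast
    nlinarith

/-- the maximum of the weights -/
theorem bw_peak {M a : ℕ} (ha1 : 1 ≤ a) (ha : 2 * a ≤ M) (j : ℕ) :
    (bw M a j : ℝ) ^ 2 * (((M : ℝ) - 2 * a + 2) * M) ≤
      128 * a * ((M + 1).choose (2 * a + 1) : ℝ) ^ 2 := by
  set B := bw M a ((M + 1) / 2) with hB
  set S := (M + 1).choose (2 * a + 1) with hS
  have hBj : (bw M a j : ℝ) ≤ B := by exact_mod_cast bw_le ha1 ha j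
  have hMr : (2 * (a : ℝ)) ≤ M := by exact_mod_cast ha
  have ha0 : (1 : ℝ) ≤ a := by exact_mod_cast ha1
  set X := (M - 2 * a + 2) * M with hX
  have hXr : (X : ℝ) = ((M : ℝ) - 2 * a + 2) * M := by
    rw [hX]; push_cast [Nat.cast_sub ha]; ring
  have hex : ∃ u, X < 16 * a * (u * (u + 1)) := by
    refine ⟨X + 1, ?_⟩
    have : (X + 1) * 1 ≤ (X + 1) * (X + 1 + 1) := Nat.mul_le_mul_left _ (by omega)
    nlinarith
  classical
  obtain ⟨t, ht1, ht2⟩ : ∃ t, 16 * a * (t * (t + 1)) ≤ X ∧ X < 16 * a * ((t + 1) * (t + 2)) := by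
    have hf := Nat.find_spec hex
    have hpos : Nat.find hex ≠ 0 := by
      intro h
      rw [h] at hf
      simp at hf
    obtain ⟨t, ht⟩ := Nat.exists_eq_succ_of_ne_zero hpos
    refine ⟨t, ?_, ?_⟩
    · have := Nat.find_min hex (m := t) (by omega)
      omega
    · rw [ht] at hf
      exact hf
  have ht4 : 4 * t ≤ M := by
    have h1 : X ≤ M * M := by
      rw [hX]; exact Nat.mul_le_mul_right _ (by omega)
    have h2 : (4 * t) * (4 * t) ≤ M * M := by
      refine le_trans ?_ (ht1.trans h1)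
      have : t * t ≤ a * (t * (t + 1)) := by
        calc t * t ≤ t * (t + 1) := Nat.mul_le_mul_left _ (by omega)
          _ = 1 * (t * (t + 1)) := by ring
          _ ≤ a * (t * (t + 1)) := Nat.mul_le_mul_right _ ha1
      nlinarith
    exact Nat.mul_self_le_mul_self_iff.mp h2
  have hhalf : ∀ s ∈ range (t + 1), (B : ℝ) ≤ 2 * bw M a ((M + 1) / 2 + s) := by
    intro s hs
    rw [mem_range] at hs
    have h := bw_lower ha1 ha s (by omega)
    have h3 : 16 * a * (s * (s + 1)) ≤ X := by
      refine le_trans ?_ ht1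
      apply Nat.mul_le_mul_left
      exact Nat.mul_le_mul (by omega) (by omega)
    have h4 : 16 * (a : ℝ) * (s * (s + 1)) ≤ X := by exact_mod_cast h3
    rw [← hXr] at h
    have hX0 : (0 : ℝ) < X := by
      rw [hXr]
      have : (0 : ℝ) < M := by linarith
      apply mul_pos _ this
      linarith
    have hB0 : (0 : ℝ) ≤ B := Nat.cast_nonneg _
    have h5 : (B : ℝ) * (X / 2) ≤ bw M a ((M + 1) / 2 + s) * X := by
      refine le_trans ?_ h
      apply mul_le_mul_of_nonneg_left _ hB0
      linarith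
    have h6 : (B : ℝ) * X ≤ 2 * bw M a ((M + 1) / 2 + s) * X := by linarith
    exact le_of_mul_le_mul_right h6 hX0
  have hsum : ((t : ℝ) + 1) * B ≤ 2 * S := by
    have h1 : ∑ s ∈ range (t + 1), (bw M a ((M + 1) / 2 + s) : ℝ) ≤ S := by
      have h2 := sum_choose a M a
      rw [show a + a + 1 = 2 * a + 1 by ring, ← hS] at h2
      have h3 : ∑ s ∈ range (t + 1), bw M a ((M + 1) / 2 + s) ≤
          ∑ j ∈ range (M + 1), j.choose a * (M - j).choose a := by
        have : ∑ s ∈ range (t + 1), bw M a ((M + 1) / 2 + s) =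
            ∑ j ∈ (range (t + 1)).image (fun s => (M + 1) / 2 + s), bw M a j := by
          rw [sum_image]
          intro x _ y _ h
          simpa using h
        rw [this]
        apply sum_le_sum_of_subset
        intro x hx
        rw [mem_image] at hx
        obtain ⟨s, hs, rfl⟩ := hx
        rw [mem_range] at hs ⊢
        omega
      rw [h2] at h3
      exact_mod_cast h3
    have h2 : ∑ s ∈ range (t + 1), (B : ℝ) ≤
        ∑ s ∈ range (t + 1), 2 * (bw M a ((M + 1) / 2 + s) : ℝ) := sum_le_sum hhalf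
    rw [sum_const, card_range, nsmul_eq_mul, ← mul_sum] at h2
    push_cast at h2
    linarith
  have hB0 : (0 : ℝ) ≤ B := Nat.cast_nonneg _
  have ht0 : (0 : ℝ) ≤ t := Nat.cast_nonneg _
  have hX2 : (X : ℝ) ≤ 32 * a * (t + 1) ^ 2 := by
    have h : (X : ℝ) ≤ 16 * a * ((t + 1) * (t + 2)) := by exact_mod_cast ht2.le
    have h2 : ((t : ℝ) + 1) * (t + 2) ≤ 2 * (t + 1) ^ 2 := by nlinarith
    nlinarith
  rw [← hXr]
  have hbj0 : (0 : ℝ) ≤ bw M a j := Nat.cast_nonneg _
  calc (bw M a j : ℝ) ^ 2 * X ≤ (B : ℝ) ^ 2 * (32 * a * (t + 1) ^ 2) := by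
        apply mul_le_mul _ hX2 (Nat.cast_nonneg _) (by positivity)
        exact pow_le_pow_left₀ hbj0 hBj 2
    _ = 32 * a * (((t : ℝ) + 1) * B) ^ 2 := by ring
    _ ≤ 32 * a * (2 * S) ^ 2 := by
        apply mul_le_mul_of_nonneg_left _ (by positivity)
        exact pow_le_pow_left₀ (by positivity) hsum 2
    _ = _ := by ring

end Pool.Agent.TH529.RD
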