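import Pool.Agent.TH529.RD.Win
import Pool.Agent.TH529.RD.Wt

/-! Halving pairs of the subsets of a point set. -/

set_option autoImplicit false

namespace Pool.Agent.TH529.RD

open Finset Pool.Agent.H189R2.Iid

variable {n : ℕ}

open Classical in
/-- the number of points of `R` below the line of the pair `q` -/
noncomputable def levR (P : Fin n → ℝ × ℝ) (R : Finset (Fin n)) (q : Fin n × Fin n) : ℕ :=
  (R.filter (fun l => P l ∈ low (P q.1) (P q.2))).card

open Classical in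
/-- the number of subsets in which a pair has level `a` -/
theorem sub_count {P : Fin n → ℝ × ℝ} {q : Fin n × Fin n} (hq : q ∈ T P) (a : ℕ) :
    ((powersetCard (2 * a + 2) (univ : Finset (Fin n))).filter
      (fun R => q.1 ∈ R ∧ q.2 ∈ R ∧ levR P R q = a)).card ≤ bw (n - 2) a (lev P q) := by
  have hq' := mem_T.mp hq
  have hne : q.1 ≠ q.2 := by
    intro h; rw [h] at hq'; exact lt_irrefl _ hq'
  set Low : Finset (Fin n) := univ.filter (fun l => P l ∈ low (P q.1) (P q.2)) with hLow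
  set Rest : Finset (Fin n) := ((univ \ Low).erase q.1).erase q.2 with hRest
  have h1 : q.1 ∉ Low := by
    rw [hLow, mem_filter]; exact fun h => fst_notMem_low _ _ h.2
  have h2 : q.2 ∉ Low := by
    rw [hLow, mem_filter]; exact fun h => snd_notMem_low hq' h.2
  have hlow : Low.card = lev P q := rfl
  have hrest : Rest.card = n - 2 - lev P q := by
    rw [hRest, card_erase_of_mem, card_erase_of_mem, card_sdiff_of_subset (subset_univ _),
      card_univ, Fintype.card_fin, hlow]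
    · omega
    · rw [mem_sdiff]; exact ⟨mem_univ _, h1⟩
    · rw [mem_erase, mem_sdiff]; exact ⟨hne.symm, mem_univ _, h2⟩
  have hR : ∀ R : Finset (Fin n), q.1 ∈ R → q.2 ∈ R →
      insert q.1 (insert q.2 ((R ∩ Low) ∪ (R ∩ Rest))) = R := by
    intro R hr1 hr2
    ext l
    simp only [mem_insert, mem_union, mem_inter, hRest, mem_erase, mem_sdiff, mem_univ, true_and]
    constructor
    · rintro (rfl | rfl | h | h)
      · exact hr1
      · exact hr2
      · exact h.1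
      · exact h.1
    · intro hl
      by_cases e1 : l = q.1
      · exact Or.inl e1
      by_cases e2 : l = q.2
      · exact Or.inr (Or.inl e2)
      by_cases e3 : l ∈ Low
      · exact Or.inr (Or.inr (Or.inl ⟨hl, e3⟩))
      · exact Or.inr (Or.inr (Or.inr ⟨hl, e2, e1, e3⟩))
  have hdisj : ∀ R : Finset (Fin n), Disjoint (R ∩ Low) (R ∩ Rest) := by
    intro R
    rw [disjoint_left]
    intro l hl hl'
    rw [mem_inter] at hl hl'
    rw [hRest, mem_erase, mem_erase, mem_sdiff] at hl'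
    exact hl'.2.2.2.2 hl.2
  have hbw : bw (n - 2) a (lev P q) = (powersetCard a Low ×ˢ powersetCard a Rest).card := by
    unfold bw
    rw [card_product, card_powersetCard, card_powersetCard, hlow, hrest]
  rw [hbw]
  apply card_le_card_of_injOn (fun R => (R ∩ Low, R ∩ Rest))
  · intro R hRm
    rw [mem_coe, mem_filter, mem_powersetCard] at hRm
    obtain ⟨⟨_, hc⟩, hr1, hr2, hlev⟩ := hRm
    rw [mem_coe, mem_product, mem_powersetCard, mem_powersetCard]
    have c1 : (R ∩ Low).card = a := by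
      rw [← hlev]
      unfold levR
      congr 1
      ext l
      rw [mem_inter, hLow, mem_filter, mem_filter]
      exact ⟨fun h => ⟨h.1, h.2.2⟩, fun h => ⟨h.1, mem_univ _, h.2⟩⟩
    refine ⟨⟨inter_subset_right, c1⟩, inter_subset_right, ?_⟩
    show (R ∩ Rest).card = a
    have hR1 := congrArg card (hR R hr1 hr2)
    have i1 : q.2 ∉ (R ∩ Low) ∪ (R ∩ Rest) := by
      rw [mem_union, mem_inter, mem_inter, hRest]
      rintro (h | h)
      · exact h2 h.2
      · exact (mem_erase.mp h.2).1 rfl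
    have i2 : q.1 ∉ insert q.2 ((R ∩ Low) ∪ (R ∩ Rest)) := by
      rw [mem_insert, mem_union, mem_inter, mem_inter, hRest]
      rintro (h | h | h)
      · exact hne h
      · exact h1 h.2
      · exact (mem_erase.mp (mem_erase.mp h.2).2).1 rfl
    rw [card_insert_of_notMem i2, card_insert_of_notMem i1, card_union_of_disjoint (hdisj R),
      c1, hc] at hR1
    omega
  · intro R hRm R' hRm' h
    rw [mem_coe, mem_filter] at hRm hRm'
    simp only [Prod.mk.injEq] at h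
    rw [← hR R hRm.2.1 hRm.2.2.1, ← hR R' hRm'.2.1 hRm'.2.2.1, h.1, h.2]

/-- the halving pairs of the subset `R` -/
noncomputable def HP (P : Fin n → ℝ × ℝ) (a : ℕ) (R : Finset (Fin n)) :
    Finset (Fin n × Fin n) := by
  classical
  exact (T P).filter (fun q => q.1 ∈ R ∧ q.2 ∈ R ∧ levR P R q = a)

theorem mem_HP {P : Fin n → ℝ × ℝ} {a : ℕ} {R : Finset (Fin n)} {q : Fin n × Fin n} :
    q ∈ HP P a R ↔ (P q.2).1 < (P q.1).1 ∧ q.1 ∈ R ∧ q.2 ∈ R ∧ levR P R q = a := by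
  classical
  unfold HP
  rw [mem_filter, mem_T]

theorem total_le {P : Fin n → ℝ × ℝ} (a : ℕ) :
    ∑ R ∈ powersetCard (2 * a + 2) (univ : Finset (Fin n)), (HP P a R).card ≤
      ∑ q ∈ T P, bw (n - 2) a (lev P q) := by
  classical
  have e : ∀ R : Finset (Fin n), (HP P a R).card =
      ∑ q ∈ T P, if (q.1 ∈ R ∧ q.2 ∈ R ∧ levR P R q = a) then 1 else 0 := by
    intro R
    unfold HP
    rw [card_filter]
  rw [sum_congr rfl (fun R _ => e R), sum_comm]
  apply sum_le_sum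
  intro q hq
  rw [← card_filter]
  exact sub_count hq a

/-- arithmetic -/
theorem arith {H S B C n a r : ℝ} (hH0 : 0 ≤ H) (hn : 4 ≤ n)
    (ha : 1 ≤ a) (hr0 : 0 < r)
    (h3 : H ^ 3 ≤ 648 * n ^ 4 * B * S ^ 2)
    (hpk : B ^ 2 * (r * (n - 2)) ≤ 128 * a * S ^ 2) (hSC : S * n = (2 * a + 2) * C) :
    H ^ 6 * r ≤ 20 ^ 6 * (2 * a + 2) ^ 7 * n * C ^ 6 := by
  have hn2 : (0 : ℝ) < n - 2 := by linarith
  have h30 : 0 ≤ H ^ 3 := pow_nonneg hH0 3
  have h4 : (H ^ 3) ^ 2 ≤ (648 * n ^ 4 * B * S ^ 2) ^ 2 := pow_le_pow_left₀ h30 h3 2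
  have h5 : H ^ 6 * (r * (n - 2)) ≤ 648 ^ 2 * 128 * a * n ^ 8 * S ^ 6 := by
    calc H ^ 6 * (r * (n - 2)) = (H ^ 3) ^ 2 * (r * (n - 2)) := by ring
      _ ≤ (648 * n ^ 4 * B * S ^ 2) ^ 2 * (r * (n - 2)) :=
          mul_le_mul_of_nonneg_right h4 (mul_nonneg hr0.le (by linarith))
      _ = 648 ^ 2 * n ^ 8 * S ^ 4 * (B ^ 2 * (r * (n - 2))) := by ring
      _ ≤ 648 ^ 2 * n ^ 8 * S ^ 4 * (128 * a * S ^ 2) :=
          mul_le_mul_of_nonneg_left hpk (by positivity)
      _ = _ := by ring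
  have h6 : n ^ 8 * S ^ 6 = n ^ 2 * (2 * a + 2) ^ 6 * C ^ 6 := by
    calc n ^ 8 * S ^ 6 = n ^ 2 * (S * n) ^ 6 := by ring
      _ = _ := by rw [hSC]; ring
  have h7 : H ^ 6 * (r * (n - 2)) ≤
      648 ^ 2 * 128 * a * (n ^ 2 * (2 * a + 2) ^ 6 * C ^ 6) := by
    rw [← h6]; linarith
  have h8 : n ^ 2 ≤ 2 * n * (n - 2) := by nlinarith
  have h9 : 648 ^ 2 * 128 * a * (n ^ 2 * (2 * a + 2) ^ 6 * C ^ 6) ≤
      (20 ^ 6 * (2 * a + 2) ^ 7 * n * C ^ 6) * (n - 2) := by
    have hCC : 0 ≤ (2 * a + 2) ^ 6 * C ^ 6 := by positivity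
    calc 648 ^ 2 * 128 * a * (n ^ 2 * (2 * a + 2) ^ 6 * C ^ 6) =
          648 ^ 2 * 128 * a * ((2 * a + 2) ^ 6 * C ^ 6) * n ^ 2 := by ring
      _ ≤ 648 ^ 2 * 128 * a * ((2 * a + 2) ^ 6 * C ^ 6) * (2 * n * (n - 2)) :=
          mul_le_mul_of_nonneg_left h8 (by positivity)
      _ = (648 ^ 2 * 128 * (2 * a)) * ((2 * a + 2) ^ 6 * C ^ 6 * (n * (n - 2))) := by ring
      _ ≤ (20 ^ 6 * (2 * a + 2)) * ((2 * a + 2) ^ 6 * C ^ 6 * (n * (n - 2))) := by
          apply mul_le_mul_of_nonneg_right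
          · norm_num
            linarith
          · apply mul_nonneg hCC
            apply mul_nonneg <;> linarith
      _ = _ := by ring
  have h10 := h7.trans h9
  have h11 : H ^ 6 * r * (n - 2) ≤ (20 ^ 6 * (2 * a + 2) ^ 7 * n * C ^ 6) * (n - 2) := by
    rw [mul_assoc]; exact h10
  exact le_of_mul_le_mul_right h11 hn2

/-- **the average number of halving pairs**, sixth powers -/
theorem total_six {P : Fin n → ℝ × ℝ} (hP : GP P) {a : ℕ} (ha1 : 1 ≤ a) (han : 2 * a + 2 ≤ n) :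
    ((∑ R ∈ powersetCard (2 * a + 2) (univ : Finset (Fin n)), (HP P a R).card : ℕ) : ℝ) ^ 6 *
      ((n : ℝ) - (2 * a + 2) + 2) ≤
      20 ^ 6 * (2 * (a : ℝ) + 2) ^ 7 * n * ((n.choose (2 * a + 2) : ℕ) : ℝ) ^ 6 := by
  have haM : 2 * a ≤ n - 2 := by omega
  have h1 : ((∑ q ∈ T P, bw (n - 2) a (lev P q) : ℕ) : ℝ) ^ 3 ≤
      648 * (n : ℝ) ^ 4 * (bw (n - 2) a ((n - 2 + 1) / 2) : ℕ) *
        (((n - 2 + 1).choose (2 * a + 1) : ℕ) : ℝ) ^ 2 := by
    have h := layer (T P) (lev P) (bw (n - 2) a) (bw (n - 2) a ((n - 2 + 1) / 2)) (n - 2 + 1)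
      (fun j _ => bw_le ha1 haM j)
      (fun q hq => by have := lev_lt hq; omega) (A := 648 * (n : ℝ) ^ 4) (by positivity)
      (fun W hW => by
        classical
        have := window_cube hP W (fun j hj => by
          have := hW hj
          rw [mem_range] at this ⊢
          omega)
        convert this using 4)
    have h2 := sum_choose a (n - 2) a
    rw [show a + a + 1 = 2 * a + 1 by ring] at h2
    have h3 : ∑ j ∈ range (n - 2 + 1), bw (n - 2) a j = (n - 2 + 1).choose (2 * a + 1) := h2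
    rw [h3] at h
    exact h
  have h2 : ((∑ R ∈ powersetCard (2 * a + 2) (univ : Finset (Fin n)), (HP P a R).card : ℕ) : ℝ) ≤
      ((∑ q ∈ T P, bw (n - 2) a (lev P q) : ℕ) : ℝ) := Nat.cast_le.mpr (total_le a)
  have hpk := bw_peak ha1 haM ((n - 2 + 1) / 2)
  have hn4 : 4 ≤ n := by omega
  have hMr : ((n - 2 : ℕ) : ℝ) = n - 2 := by rw [Nat.cast_sub (by omega)]; norm_num
  rw [hMr] at hpk
  have hnr : (4 : ℝ) ≤ n := by exact_mod_cast hn4
  have hanr : 2 * (a : ℝ) + 2 ≤ n := by exact_mod_cast han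
  have har : (1 : ℝ) ≤ a := by exact_mod_cast ha1
  have hSC : (((n - 2 + 1).choose (2 * a + 1) : ℕ) : ℝ) * n =
      (2 * a + 2) * ((n.choose (2 * a + 2) : ℕ) : ℝ) := by
    have h := Nat.add_one_mul_choose_eq (n - 1) (2 * a + 1)
    have e1 : n - 1 + 1 = n := by omega
    have e2 : 2 * a + 1 + 1 = 2 * a + 2 := rfl
    rw [e1, e2] at h
    have e3 : n - 2 + 1 = n - 1 := by omega
    rw [e3]
    have h' : (n : ℝ) * ((n - 1).choose (2 * a + 1) : ℕ) =
        ((n.choose (2 * a + 2) : ℕ) : ℝ) * ((2 * a + 2 : ℕ) : ℝ) := by exact_mod_cast h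
    push_cast at h'
    linarith
  have hre : (n : ℝ) - 2 - 2 * a + 2 = (n : ℝ) - (2 * a + 2) + 2 := by ring
  rw [hre] at hpk
  obtain ⟨H, hH⟩ : ∃ H : ℝ, H = ((∑ R ∈ powersetCard (2 * a + 2) (univ : Finset (Fin n)),
    (HP P a R).card : ℕ) : ℝ) := ⟨_, rfl⟩
  rw [← hH] at h2 ⊢
  have hH0 : 0 ≤ H := by rw [hH]; exact Nat.cast_nonneg _
  exact arith hH0 hnr har (by linarith)
    ((pow_le_pow_left₀ hH0 h2 3).trans h1) hpk hSC

end Pool.Agent.TH529.RD
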