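import Pool.Agent.TH529.RD.Few
import Pool.Agent.TH529.RD.Fin

/-! Vertices of the levels of a line arrangement. -/

set_option autoImplicit false

namespace Pool.Agent.TH529.RD

open Finset Filter Topology Pool.Agent.H189R2.Iid Pool.Agent.W296.HL

/-- The height at abscissa `x` of the non-vertical line with slope `l.1` and intercept `l.2`. -/
def height (l : ℝ × ℝ) (x : ℝ) : ℝ := l.1 * x + l.2

open scoped Classical in
/-- The level of a point: the number of lines of `Γ` passing strictly below it. -/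
noncomputable def level (Γ : Finset (ℝ × ℝ)) (p : ℝ × ℝ) : ℕ :=
  (Γ.filter (fun l => height l p.1 < p.2)).card

/-- The `k`-level: the closure of the set of points that lie on some line of `Γ` and have level
exactly `k`. -/
def kLevel (Γ : Finset (ℝ × ℝ)) (k : ℕ) : Set (ℝ × ℝ) :=
  closure {p | (∃ l ∈ Γ, height l p.1 = p.2) ∧ level Γ p = k}

/-- The vertices of the `k`-level: the points where the chain passes from one line `l` of `Γ`
to another line `m` of `Γ`. -/
def IsVertex (Γ : Finset (ℝ × ℝ)) (k : ℕ) (p : ℝ × ℝ) : Prop :=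
  ∃ l ∈ Γ, ∃ m ∈ Γ, l ≠ m ∧ height l p.1 = p.2 ∧ height m p.1 = p.2 ∧
    ∃ δ > 0, (∀ x, p.1 - δ < x → x < p.1 → (x, height l x) ∈ kLevel Γ k) ∧
      (∀ x, p.1 < x → x < p.1 + δ → (x, height m x) ∈ kLevel Γ k)

/-- No three lines of `Γ` pass through a common point (parallel lines are allowed). -/
def Simple (Γ : Finset (ℝ × ℝ)) : Prop :=
  ∀ l ∈ Γ, ∀ m ∈ Γ, ∀ r ∈ Γ, l ≠ m → l ≠ r → m ≠ r → ∀ x,
    ¬ (height l x = height m x ∧ height l x = height r x)

open scoped Classical in
/-- lines weakly below a point -/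
noncomputable def weak (Γ : Finset (ℝ × ℝ)) (p : ℝ × ℝ) : ℕ :=
  (Γ.filter (fun l => height l p.1 ≤ p.2)).card

theorem level_near (Γ : Finset (ℝ × ℝ)) (z : ℝ × ℝ) : ∀ᶠ w in 𝓝 z, level Γ z ≤ level Γ w := by
  classical
  have h : ∀ᶠ w in 𝓝 z, ∀ l ∈ Γ, height l z.1 < z.2 → height l w.1 < w.2 := by
    rw [eventually_all_finset]
    intro l _
    by_cases hl : height l z.1 < z.2
    · have c : Continuous (fun w : ℝ × ℝ => height l w.1) := by unfold height; fun_prop
      exact (c.continuousAt.eventually_lt continuous_snd.continuousAt hl).mono (fun _ h _ => h)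
    · exact Eventually.of_forall (fun _ h => absurd h hl)
  filter_upwards [h] with w hw
  unfold level
  apply card_le_card
  intro l hl
  rw [mem_filter] at hl ⊢
  exact ⟨hl.1, hw l hl.1 hl.2⟩

theorem weak_near (Γ : Finset (ℝ × ℝ)) (z : ℝ × ℝ) : ∀ᶠ w in 𝓝 z, weak Γ w ≤ weak Γ z := by
  classical
  have h : ∀ᶠ w in 𝓝 z, ∀ l ∈ Γ, z.2 < height l z.1 → w.2 < height l w.1 := by
    rw [eventually_all_finset]
    intro l _
    by_cases hl : z.2 < height l z.1
    · have c : Continuous (fun w : ℝ × ℝ => height l w.1) := by unfold height; fun_prop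
      exact (continuous_snd.continuousAt.eventually_lt c.continuousAt hl).mono (fun _ h _ => h)
    · exact Eventually.of_forall (fun _ h => absurd h hl)
  filter_upwards [h] with w hw
  unfold weak
  apply card_le_card
  intro l hl
  rw [mem_filter] at hl ⊢
  refine ⟨hl.1, ?_⟩
  by_contra hcon
  exact absurd hl.2 (not_le.mpr (hw l hl.1 (not_le.mp hcon)))

theorem weak_ge {Γ : Finset (ℝ × ℝ)} {k : ℕ} {p : ℝ × ℝ}
    (h : (∃ l ∈ Γ, height l p.1 = p.2) ∧ level Γ p = k) : k + 1 ≤ weak Γ p := by
  classical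
  obtain ⟨⟨l, hl, h1⟩, h2⟩ := h
  rw [← h2]
  unfold level weak
  have hnot : l ∉ Γ.filter (fun l => height l p.1 < p.2) := by
    rw [mem_filter]; rintro ⟨_, h3⟩; linarith
  rw [← card_insert_of_notMem hnot]
  apply card_le_card
  intro m hm
  rw [mem_insert, mem_filter] at hm
  rw [mem_filter]
  rcases hm with rfl | hm
  · exact ⟨hl, h1.le⟩
  · exact ⟨hm.1, hm.2.le⟩

theorem kLevel_bounds {Γ : Finset (ℝ × ℝ)} {k : ℕ} {p : ℝ × ℝ} (hp : p ∈ kLevel Γ k) :
    level Γ p ≤ k ∧ k + 1 ≤ weak Γ p := by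
  unfold kLevel at hp
  rw [mem_closure_iff_frequently] at hp
  obtain ⟨w, hw, h1, h2⟩ := (hp.and_eventually ((level_near Γ p).and (weak_near Γ p))).exists
  have h3 := weak_ge hw
  exact ⟨h1.trans hw.2.le, h3.trans h2⟩

theorem vertex_mem {Γ : Finset (ℝ × ℝ)} {k : ℕ} {p : ℝ × ℝ} (hp : IsVertex Γ k p) :
    p ∈ kLevel Γ k := by
  obtain ⟨l, _, m, _, _, h1, _, δ, hδ, h2, _⟩ := hp
  have hclosed : IsClosed (kLevel Γ k) := isClosed_closure
  have hc : Continuous (fun x : ℝ => (x, height l x)) := by unfold height; fun_prop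
  have ht : Tendsto (fun x : ℝ => (x, height l x)) (𝓝[<] p.1) (𝓝 p) := by
    have := hc.tendsto p.1
    rw [h1] at this
    exact this.mono_left nhdsWithin_le_nhds
  apply hclosed.mem_of_tendsto ht
  have : Set.Ioo (p.1 - δ) p.1 ∈ 𝓝[<] p.1 := Ioo_mem_nhdsLT (by linarith)
  filter_upwards [this] with x hx
  exact h2 x hx.1 hx.2

theorem through_le {Γ : Finset (ℝ × ℝ)} (hΓ : Simple Γ) (p : ℝ × ℝ) :
    {l ∈ Γ | height l p.1 = p.2}.card ≤ 2 := by
  by_contra hcon
  push Not at hcon
  rw [two_lt_card] at hcon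
  obtain ⟨a, ha, b, hb, c, hc, h1, h2, h3⟩ := hcon
  rw [mem_filter] at ha hb hc
  exact hΓ a ha.1 b hb.1 c hc.1 h1 h2 h3 p.1 ⟨by rw [ha.2, hb.2], by rw [ha.2, hc.2]⟩

/-- a vertex of the `k`-level has level `k` or `k - 1` -/
theorem vertex_level {Γ : Finset (ℝ × ℝ)} (hΓ : Simple Γ) {k : ℕ} {p : ℝ × ℝ}
    (hp : IsVertex Γ k p) : level Γ p = k ∨ (1 ≤ k ∧ level Γ p = k - 1) := by
  classical
  have h := kLevel_bounds (vertex_mem hp)
  have h2 : weak Γ p ≤ level Γ p + 2 := by
    have h3 := through_le hΓ p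
    unfold weak level
    have hsub : Γ.filter (fun l => height l p.1 ≤ p.2) ⊆
        Γ.filter (fun l => height l p.1 < p.2) ∪ {l ∈ Γ | height l p.1 = p.2} := by
      intro l hl
      rw [mem_filter] at hl
      rw [mem_union, mem_filter, mem_filter]
      rcases hl.2.lt_or_eq with h | h
      · exact Or.inl ⟨hl.1, h⟩
      · exact Or.inr ⟨hl.1, h⟩
    have h4 := (card_le_card hsub).trans (card_union_le _ _)
    omega
  omega

theorem cr_formula {p q x : ℝ × ℝ} (h : q.1 < p.1) :
    cr q p x = (x.1 * X2 p q + x.2 - Y2 p q) * (p.1 - q.1) := by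
  have hd : 0 < p.1 - q.1 := by linarith
  have hX : X2 p q * (p.1 - q.1) = q.2 - p.2 := by
    unfold X2; rw [div_mul_cancel₀ _ hd.ne']
  unfold Y2 cr
  linear_combination (-(x.1 - p.1)) * hX

/-- the vertices of the `k`-level on the lines of `A` -/
def vertexSet (Γ : Finset (ℝ × ℝ)) (k : ℕ) (A : Finset (ℝ × ℝ)) : Set (ℝ × ℝ) :=
  {p | IsVertex Γ k p ∧ ∃ l ∈ A, height l p.1 = p.2}

theorem vertexSet_card {Γ : Finset (ℝ × ℝ)} (hΓ : Simple Γ) (k : ℕ) {A : Finset (ℝ × ℝ)}
    (hA : A ⊆ Γ) : (vertexSet Γ k A).Finite ∧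
      ((vertexSet Γ k A).ncard : ℝ) ^ 3 ≤ 64000 * ((Γ.card : ℝ) ^ 2 * (A.card * (k + 1))) := by
  classical
  obtain ⟨f, hf⟩ := exists_emb Γ
  obtain ⟨P, hP, hP1, hP2⟩ := exists_GP (n := Γ.card) f
  have hfm : ∀ i, f i ∈ Γ := by
    intro i
    have : f i ∈ univ.map f := mem_map_of_mem f (mem_univ i)
    rwa [hf] at this
  have hfs : ∀ l ∈ Γ, ∃ i, f i = l := by
    intro l hl
    rw [← hf, Finset.mem_map] at hl
    obtain ⟨i, _, hi⟩ := hl
    exact ⟨i, hi⟩
  set A' : Finset (Fin Γ.card) := univ.filter (fun i => f i ∈ A) with hA'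
  have hA'c : A'.card ≤ A.card := by
    apply card_le_card_of_injOn f
    · intro i hi
      rw [mem_coe, hA', mem_filter] at hi
      exact hi.2
    · exact f.injective.injOn
  -- the map from pairs to points
  set φ : Fin Γ.card × Fin Γ.card → ℝ × ℝ := fun q => (X2 (f q.1) (f q.2), Y2 (f q.1) (f q.2))
    with hφ
  have key : ∀ p, IsVertex Γ k p → (∃ l ∈ A, height l p.1 = p.2) →
      ∃ q ∈ GA P (level Γ p) A', φ q = p := by
    intro p hp hpA
    obtain ⟨l, hl, m, hm, hlm, h1, h2, -⟩ := id hp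
    -- order the two lines by slope
    have main : ∀ l ∈ Γ, ∀ m ∈ Γ, m.1 < l.1 → height l p.1 = p.2 → height m p.1 = p.2 →
        ∃ q ∈ GA P (level Γ p) A', φ q = p := by
      intro l hl m hm hlt h1 h2
      obtain ⟨i, rfl⟩ := hfs l hl
      obtain ⟨j, rfl⟩ := hfs m hm
      have hd : 0 < (f i).1 - (f j).1 := by linarith
      have hX : X2 (f i) (f j) = p.1 := by
        unfold X2
        rw [div_eq_iff hd.ne']
        unfold height at h1 h2
        linarith
      have hY : Y2 (f i) (f j) = p.2 := by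
        unfold Y2
        rw [hX]
        exact h1
      have hPlt := hP1 j i hlt
      have hij : i ≠ j := by
        intro h; rw [h] at hlt; exact lt_irrefl _ hlt
      have hne : f i ≠ f j := fun h => hij (f.injective h)
      have hcr : ∀ t, cr (f j) (f i) (f t) = (height (f t) p.1 - p.2) * ((f i).1 - (f j).1) := by
        intro t
        rw [cr_formula hlt, hX, hY]
        rfl
      have hside : ∀ t, P t ∈ low (P i) (P j) ↔ height (f t) p.1 < p.2 := by
        intro t
        rw [mem_low_iff hPlt]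
        by_cases hti : t = i
        · subst hti
          have : cr (P j) (P t) (P t) = 0 := by unfold cr; ring
          rw [this, h1]
          simp
        by_cases htj : t = j
        · subst htj
          have : cr (P t) (P i) (P t) = 0 := by unfold cr; ring
          rw [this, h2]
          simp
        have hnz : height (f t) p.1 ≠ p.2 := by
          intro h
          exact hΓ (f i) hl (f j) hm (f t) (hfm t) hne (fun h => hti (f.injective h).symm)
            (fun h => htj (f.injective h).symm) p.1 ⟨by rw [h1, h2], by rw [h1, h]⟩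
        constructor
        · intro h
          by_contra hcon
          have hgt : p.2 < height (f t) p.1 := lt_of_le_of_ne (not_lt.mp hcon) hnz.symm
          have h3 : cr (f i) (f j) (f t) < 0 := by
            rw [cr_swap, hcr]
            have := mul_pos (sub_pos.mpr hgt) hd
            linarith
          have h4 := hP2 _ _ _ h3
          rw [cr_swap] at h4
          linarith
        · intro h
          apply hP2
          rw [hcr]
          exact mul_neg_of_neg_of_pos (by linarith) hd
      refine ⟨(i, j), ?_, ?_⟩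
      · rw [mem_GA]
        refine ⟨hPlt, ?_, ?_⟩
        · unfold lev level
          have e : Γ.filter (fun l => height l p.1 < p.2) =
              (univ.filter (fun t => P t ∈ low (P i) (P j))).map f := by
            ext l
            rw [mem_filter, Finset.mem_map]
            constructor
            · rintro ⟨hl1, hl2⟩
              obtain ⟨t, rfl⟩ := hfs l hl1
              exact ⟨t, mem_filter.mpr ⟨mem_univ _, (hside t).mpr hl2⟩, rfl⟩
            · rintro ⟨t, ht, rfl⟩
              rw [mem_filter] at ht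
              exact ⟨hfm t, (hside t).mp ht.2⟩
          rw [e, card_map]
        · obtain ⟨r, hr, hr2⟩ := hpA
          obtain ⟨t, rfl⟩ := hfs r (hA hr)
          by_cases hti : t = i
          · subst hti
            left
            rw [hA', mem_filter]
            exact ⟨mem_univ _, hr⟩
          by_cases htj : t = j
          · subst htj
            right
            rw [hA', mem_filter]
            exact ⟨mem_univ _, hr⟩
          exfalso
          exact hΓ (f i) hl (f j) hm (f t) (hfm t) hne (fun h => hti (f.injective h).symm)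
            (fun h => htj (f.injective h).symm) p.1 ⟨by rw [h1, h2], by rw [h1, hr2]⟩
      · rw [hφ]
        exact Prod.ext hX hY
    have hsl : l.1 ≠ m.1 := by
      intro h
      apply hlm
      unfold height at h1 h2
      rw [h] at h1
      exact Prod.ext h (by linarith)
    rcases lt_or_gt_of_ne hsl with h | h
    · exact main m hm l hl h h2 h1
    · exact main l hl m hm h h1 h2
  have hsub : vertexSet Γ k A ⊆ ((GA P k A').image φ ∪
      (if 1 ≤ k then (GA P (k - 1) A').image φ else ∅) : Finset (ℝ × ℝ)) := by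
    rintro p ⟨hp, hpA⟩
    obtain ⟨q, hq, hqp⟩ := key p hp hpA
    rw [coe_union, Set.mem_union, mem_coe, mem_coe, mem_image]
    rcases vertex_level hΓ hp with h | ⟨h1, h⟩
    · left
      rw [h] at hq
      exact ⟨q, hq, hqp⟩
    · right
      rw [if_pos h1, mem_image]
      rw [h] at hq
      exact ⟨q, hq, hqp⟩
  refine ⟨(finite_toSet _).subset hsub, ?_⟩
  have hcard : (vertexSet Γ k A).ncard ≤ (GA P k A').card +
      (if 1 ≤ k then (GA P (k - 1) A').card else 0) := by
    refine (Set.ncard_le_ncard hsub (finite_toSet _)).trans ?_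
    rw [Set.ncard_coe_finset]
    refine (card_union_le _ _).trans ?_
    apply add_le_add card_image_le
    split_ifs
    · exact card_image_le
    · simp
  obtain ⟨Y, hY⟩ : ∃ Y : ℝ, Y = (Γ.card : ℝ) ^ 2 * (A.card * (k + 1)) := ⟨_, rfl⟩
  have hY0 : 0 ≤ Y := by rw [hY]; positivity
  rw [← hY]
  obtain ⟨y, hy0, hy⟩ : ∃ y : ℝ, 0 ≤ y ∧ y ^ 3 = Y := by
    refine ⟨Y ^ (1 / 3 : ℝ), Real.rpow_nonneg hY0 _, ?_⟩
    rw [← Real.rpow_natCast, ← Real.rpow_mul hY0]
    norm_num
  have hAr : (A'.card : ℝ) ≤ A.card := by exact_mod_cast hA'c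
  have c1 : ((GA P k A').card : ℝ) ≤ 20 * y := by
    refine le_of_pow_le_pow_left₀ (n := 3) (by norm_num) (by positivity) ?_
    refine (few_cube hP k A').trans ?_
    rw [mul_pow, hy, hY]
    norm_num
    gcongr
  have c2 : ((if 1 ≤ k then (GA P (k - 1) A').card else 0 : ℕ) : ℝ) ≤ 20 * y := by
    split_ifs with hk
    · refine le_of_pow_le_pow_left₀ (n := 3) (by norm_num) (by positivity) ?_
      refine (few_cube hP (k - 1) A').trans ?_
      rw [mul_pow, hy, hY]
      norm_num
      have : ((k - 1 : ℕ) : ℝ) + 1 ≤ (k : ℝ) + 1 := by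
        have : k - 1 + 1 ≤ k + 1 := by omega
        exact_mod_cast this
      gcongr
    · simp only [Nat.cast_zero]; positivity
  have c3 : ((vertexSet Γ k A).ncard : ℝ) ≤ 40 * y := by
    have : ((vertexSet Γ k A).ncard : ℝ) ≤ ((GA P k A').card : ℝ) +
        ((if 1 ≤ k then (GA P (k - 1) A').card else 0 : ℕ) : ℝ) := by exact_mod_cast hcard
    linarith
  calc ((vertexSet Γ k A).ncard : ℝ) ^ 3 ≤ (40 * y) ^ 3 :=
        pow_le_pow_left₀ (Nat.cast_nonneg _) c3 3
    _ = 64000 * Y := by rw [mul_pow, hy]; norm_num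

/-- lines with many vertices of the `k`-level -/
theorem rich_lines {Γ : Finset (ℝ × ℝ)} (hΓ : Simple Γ) (k d : ℕ) (hd : 1 ≤ d) :
    (({l ∈ Γ | d ≤ (vertexSet Γ k {l}).ncard}.card : ℕ) : ℝ) ^ 2 * (d : ℝ) ^ 3 ≤
      512000 * ((Γ.card : ℝ) ^ 2 * (k + 1)) := by
  classical
  set A := {l ∈ Γ | d ≤ (vertexSet Γ k {l}).ncard} with hA
  have hAΓ : A ⊆ Γ := filter_subset _ _
  obtain ⟨hfin, hcube⟩ := vertexSet_card hΓ k hAΓ
  set V := hfin.toFinset with hV
  have hVc : (vertexSet Γ k A).ncard = V.card := by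
    rw [hV, Set.ncard_eq_toFinset_card _ hfin]
  have h1 : A.card * d ≤ V.card * 2 := by
    have hdc := card_mul_le_card_mul (fun (l : ℝ × ℝ) (p : ℝ × ℝ) => height l p.1 = p.2)
      (s := A) (t := V) (m := d) (n := 2) (fun l hl => by
        have hl' := hl
        rw [hA, mem_filter] at hl'
        refine hl'.2.trans ?_
        have hsub : vertexSet Γ k {l} ⊆
            ((bipartiteAbove (fun (l : ℝ × ℝ) (p : ℝ × ℝ) => height l p.1 = p.2) V l :
              Finset (ℝ × ℝ)) : Set (ℝ × ℝ)) := by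
          rintro p ⟨hp, r, hr, hr2⟩
          rw [mem_singleton] at hr
          subst hr
          rw [mem_coe, mem_bipartiteAbove, hV, Set.Finite.mem_toFinset]
          exact ⟨⟨hp, r, hl, hr2⟩, hr2⟩
        have := Set.ncard_le_ncard hsub (finite_toSet _)
        rwa [Set.ncard_coe_finset] at this) (fun p _ => by
        refine le_trans (card_le_card ?_) (through_le hΓ p)
        intro l hl
        rw [mem_bipartiteBelow] at hl
        rw [mem_filter]
        exact ⟨hAΓ hl.1, hl.2⟩)
    exact hdc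
  have h1r : (A.card : ℝ) * d ≤ 2 * ((vertexSet Γ k A).ncard : ℝ) := by
    rw [hVc]
    have : (A.card : ℝ) * d ≤ V.card * 2 := by exact_mod_cast h1
    linarith
  have h2 : ((A.card : ℝ) * d) ^ 3 ≤ 512000 * ((Γ.card : ℝ) ^ 2 * (A.card * (k + 1))) := by
    calc ((A.card : ℝ) * d) ^ 3 ≤ (2 * ((vertexSet Γ k A).ncard : ℝ)) ^ 3 :=
          pow_le_pow_left₀ (by positivity) h1r 3
      _ = 8 * ((vertexSet Γ k A).ncard : ℝ) ^ 3 := by ring
      _ ≤ 8 * (64000 * ((Γ.card : ℝ) ^ 2 * (A.card * (k + 1)))) := by linarith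
      _ = _ := by ring
  rcases Nat.eq_zero_or_pos A.card with h0 | h0
  · rw [h0]
    simp only [Nat.cast_zero]
    have : (0 : ℝ) ≤ 512000 * ((Γ.card : ℝ) ^ 2 * (k + 1)) := by positivity
    nlinarith
  · have ha : (0 : ℝ) < A.card := by exact_mod_cast h0
    have h3 : (A.card : ℝ) * ((A.card : ℝ) ^ 2 * (d : ℝ) ^ 3) ≤
        A.card * (512000 * ((Γ.card : ℝ) ^ 2 * (k + 1))) := by nlinarith
    exact le_of_mul_le_mul_left h3 ha

end Pool.Agent.TH529.RD
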