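import Pool.Agent.TH529.RD.Cl

/-! Cubic bounds for the number of pairs with levels in a given set. -/

set_option autoImplicit false

namespace Pool.Agent.TH529.RD

open Finset Pool.Agent.H189R2.Iid

variable {n : ℕ}

/-- the crossing lemma -/
theorem cube_le {P : Fin n → ℝ × ℝ} (hP : GP P) (G : Finset (Fin n × Fin n)) (hG : G ⊆ T P) :
    (G.card : ℝ) ^ 3 ≤ 72 * n ^ 2 * (Xs P G).card + 216 * n ^ 3 := by
  set g : ℝ := (G.card : ℝ) with hg
  set X : ℝ := ((Xs P G).card : ℝ) with hX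
  have hg0 : 0 ≤ g := Nat.cast_nonneg _
  have hX0 : 0 ≤ X := Nat.cast_nonneg _
  have hn0 : (0 : ℝ) ≤ n := Nat.cast_nonneg _
  by_cases h6 : g ≤ 6 * n
  · have : g ^ 3 ≤ (6 * n) ^ 3 := pow_le_pow_left₀ hg0 h6 3
    have h2 : 0 ≤ 72 * (n : ℝ) ^ 2 * X := by positivity
    nlinarith
  · push Not at h6
    have hgpos : 0 < g := lt_of_le_of_lt (by positivity) h6
    set p : ℝ := 6 * n / g with hp
    have hp0 : 0 ≤ p := by positivity
    have hp1 : p ≤ 1 := by
      rw [hp, div_le_one hgpos]; exact h6.le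
    have h := crossing hP (p := fun _ => p) (fun _ => hp0) (fun _ => hp1) G hG
    simp only [sum_const, card_univ, Fintype.card_fin, nsmul_eq_mul] at h
    rw [← hg, ← hX] at h
    have hpg : p * g = 6 * n := by rw [hp]; field_simp
    -- multiply by g ^ 4
    have h1 : g * (p * p) * g ^ 4 ≤ (3 * (n * p) + X * (p * p * (p * p))) * g ^ 4 :=
      mul_le_mul_of_nonneg_right h (by positivity)
    have e1 : g * (p * p) * g ^ 4 = (p * g) ^ 2 * g ^ 3 := by ring
    have e2 : (3 * (n * p) + X * (p * p * (p * p))) * g ^ 4 =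
        3 * n * (p * g) * g ^ 3 + X * (p * g) ^ 4 := by ring
    rw [e1, e2, hpg] at h1
    have h2 : 18 * (n : ℝ) ^ 2 * g ^ 3 ≤ 1296 * X * n ^ 4 := by nlinarith
    by_cases hn : (n : ℝ) = 0
    · exfalso
      have hc : G.card ≤ 0 := by
        have h3 : n = 0 := by exact_mod_cast hn
        subst h3
        have : G = ∅ := by
          apply eq_empty_of_forall_notMem
          intro q _
          exact Fin.elim0 q.1
        rw [this]; simp
      have : g ≤ 0 := by rw [hg]; exact_mod_cast hc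
      linarith
    · have hn2 : 0 < (n : ℝ) ^ 2 := by positivity
      have h3 : (n : ℝ) ^ 2 * (18 * g ^ 3) ≤ n ^ 2 * (1296 * X * n ^ 2) := by nlinarith
      have h4 := le_of_mul_le_mul_left h3 hn2
      have h5 : 0 ≤ 216 * (n : ℝ) ^ 3 := by positivity
      nlinarith

open Classical in
theorem lev_lt {P : Fin n → ℝ × ℝ} {q : Fin n × Fin n} (hq : q ∈ T P) : lev P q + 2 ≤ n := by
  have hq' := mem_T.mp hq
  have hne : q.1 ≠ q.2 := by
    intro h; rw [h] at hq'; exact lt_irrefl _ hq'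
  unfold lev
  have hsub : univ.filter (fun l => P l ∈ low (P q.1) (P q.2)) ⊆ (univ.erase q.1).erase q.2 := by
    intro l hl
    rw [mem_filter] at hl
    rw [mem_erase, mem_erase]
    refine ⟨?_, ?_, mem_univ _⟩
    · intro h; rw [h] at hl; exact snd_notMem_low hq' hl.2
    · intro h; rw [h] at hl; exact fst_notMem_low _ _ hl.2
  have := card_le_card hsub
  rw [card_erase_of_mem (by rw [mem_erase]; exact ⟨hne.symm, mem_univ _⟩),
    card_erase_of_mem (mem_univ _), card_univ, Fintype.card_fin] at this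
  have h2 : 2 ≤ n := by
    have h3 := q.1.isLt
    have h4 := q.2.isLt
    have h5 : (q.1 : ℕ) ≠ q.2 := fun h => hne (Fin.ext h)
    omega
  omega

open Classical in
/-- pairs with levels in a set -/
theorem window_cube {P : Fin n → ℝ × ℝ} (hP : GP P) (W : Finset ℕ) (hW : W ⊆ range n) :
    (((T P).filter (fun q => lev P q ∈ W)).card : ℝ) ^ 3 ≤ 648 * n ^ 4 * (W.card : ℝ) ^ 2 := by
  set G := (T P).filter (fun q => lev P q ∈ W) with hG
  rcases W.eq_empty_or_nonempty with rfl | hne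
  · have : G = ∅ := by
      apply eq_empty_of_forall_notMem
      intro q hq
      rw [hG, mem_filter] at hq
      simp at hq
    rw [this]; simp
  have hn1 : 1 ≤ n := by
    obtain ⟨k, hk⟩ := hne
    have := hW hk
    rw [mem_range] at this
    omega
  have hWc : 1 ≤ W.card := hne.card_pos
  have h1 := cube_le hP G (filter_subset _ _)
  have h2 := cross_window hP W (K := n - 1) (fun k hk => by
    have := hW hk
    rw [mem_range] at this
    omega)
  have h3 := low_le hP (n - 1)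
  have h4 : Xs P G ⊆ (T P ×ˢ T P).filter (fun q => q.1 ≠ q.2 ∧ lev P q.1 ∈ W ∧ lev P q.2 ∈ W ∧
      CrossP (P q.1.1) (P q.1.2) (P q.2.1) (P q.2.2)) := by
    intro q hq
    rw [mem_Xs, hG, mem_filter, mem_filter] at hq
    rw [mem_filter, mem_product]
    exact ⟨⟨hq.1.1, hq.2.1.1⟩, hq.2.2.1, hq.1.2, hq.2.1.2, hq.2.2.2⟩
  have h5 := (card_le_card h4).trans h2
  have hn1r : ((n - 1 : ℕ) : ℝ) + 1 = n := by
    rw [Nat.cast_sub hn1]; push_cast; ring
  rw [hn1r] at h3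
  have h6 : ((Xs P G).card : ℝ) ≤ (W.card : ℝ) ^ 2 * (6 * n * n) := by
    have : ((Xs P G).card : ℝ) ≤ (W.card : ℝ) ^ 2 *
        (2 * (((T P).filter (fun q => lev P q ≤ n - 1)).card : ℝ)) := by exact_mod_cast h5
    refine this.trans ?_
    apply mul_le_mul_of_nonneg_left _ (sq_nonneg _)
    linarith
  have hnr : (1 : ℝ) ≤ n := by exact_mod_cast hn1
  have hwr : (1 : ℝ) ≤ W.card := by exact_mod_cast hWc
  have h7 : (n : ℝ) ^ 3 ≤ n ^ 4 * (W.card : ℝ) ^ 2 := by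
    have a1 : (n : ℝ) ^ 3 ≤ n ^ 4 := pow_le_pow_right₀ hnr (by norm_num)
    have a2 : (1 : ℝ) ≤ (W.card : ℝ) ^ 2 := one_le_pow₀ hwr
    nlinarith [pow_nonneg (by linarith : (0 : ℝ) ≤ n) 4]
  have h8 : 72 * (n : ℝ) ^ 2 * (Xs P G).card ≤ 432 * n ^ 4 * (W.card : ℝ) ^ 2 := by
    have := mul_le_mul_of_nonneg_left h6 (by positivity : 0 ≤ 72 * (n : ℝ) ^ 2)
    nlinarith
  nlinarith

theorem rp32 {x : ℝ} (hx : 0 ≤ x) : x ^ (3 / 2 : ℝ) = Real.sqrt (x ^ 3) := by
  rw [Real.sqrt_eq_rpow, ← Real.rpow_natCast x 3, ← Real.rpow_mul hx]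
  norm_num

theorem rp32sq {x : ℝ} (hx : 0 ≤ x) : (x ^ (3 / 2 : ℝ)) ^ 2 = x ^ 3 := by
  rw [rp32 hx, Real.sq_sqrt (by positivity)]

theorem rp12sq {x : ℝ} (hx : 0 ≤ x) : (x ^ (3 / 2 - 1 : ℝ)) ^ 2 = x := by
  have : x ^ (3 / 2 - 1 : ℝ) = Real.sqrt x := by
    rw [Real.sqrt_eq_rpow]
    norm_num
  rw [this, Real.sq_sqrt hx]

/-- Hoelder's inequality for sums over level sets -/
theorem layer {ι : Type} (Q : Finset ι) (lv : ι → ℕ) (w : ℕ → ℕ) (B L : ℕ)
    (hw : ∀ j ∈ range L, w j ≤ B) (hlv : ∀ q ∈ Q, lv q < L) {A : ℝ} (hA : 0 ≤ A)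
    (hwin : ∀ W ⊆ range L, ((Q.filter (fun q => lv q ∈ W)).card : ℝ) ^ 3 ≤ A * (W.card : ℝ) ^ 2) :
    (((∑ q ∈ Q, w (lv q) : ℕ)) : ℝ) ^ 3 ≤ A * B * ((∑ j ∈ range L, w j : ℕ) : ℝ) ^ 2 := by
  classical
  set W : ℕ → Finset ℕ := fun t => (range L).filter (fun j => t < w j) with hWdef
  obtain ⟨x, hx⟩ : ∃ x : ℕ → ℝ, x = fun t => ((Q.filter (fun q => lv q ∈ W t)).card : ℝ) :=
    ⟨_, rfl⟩
  obtain ⟨y, hy⟩ : ∃ y : ℕ → ℝ, y = fun t => ((W t).card : ℝ) := ⟨_, rfl⟩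
  have hxy : ∀ t, x t ^ 3 ≤ A * y t ^ 2 := fun t => by
    rw [hx, hy]; exact hwin (W t) (filter_subset _ _)
  have hx0 : ∀ t, 0 ≤ x t := fun t => by rw [hx]; exact Nat.cast_nonneg _
  have hy0 : ∀ t, 0 ≤ y t := fun t => by rw [hy]; exact Nat.cast_nonneg _
  have hval : ∀ m : ℕ, m ≤ B → (m : ℝ) = ∑ t ∈ range B, if t < m then (1 : ℝ) else 0 := by
    intro m hm
    rw [← sum_filter]
    have : (range B).filter (fun t => t < m) = range m := by
      ext t; rw [mem_filter, mem_range, mem_range]; omega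
    rw [this, sum_const, card_range, nsmul_eq_mul, mul_one]
  have e1 : (((∑ q ∈ Q, w (lv q) : ℕ)) : ℝ) = ∑ t ∈ range B, x t := by
    push_cast
    rw [sum_congr rfl (fun q hq => hval _ (hw _ (mem_range.mpr (hlv q hq)))), sum_comm]
    apply sum_congr rfl
    intro t _
    rw [hx]
    simp only [card_filter]
    push_cast
    apply sum_congr rfl
    intro q hq
    have : (lv q ∈ W t) ↔ t < w (lv q) := by
      rw [hWdef]
      simp only [mem_filter, mem_range]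
      exact ⟨fun h => h.2, fun h => ⟨hlv q hq, h⟩⟩
    simp only [this]
  have e2 : ((∑ j ∈ range L, w j : ℕ) : ℝ) = ∑ t ∈ range B, y t := by
    push_cast
    rw [sum_congr rfl (fun j hj => hval _ (hw _ hj)), sum_comm]
    apply sum_congr rfl
    intro t _
    rw [hy, hWdef]
    simp only [card_filter]
    push_cast
    rfl
  rw [e1, e2]
  have hpm := Real.rpow_sum_le_const_mul_sum_rpow (range B) x (p := 3 / 2) (by norm_num)
  have habs : ∀ t, |x t| = x t := fun t => abs_of_nonneg (hx0 t)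
  simp_rw [habs] at hpm
  rw [card_range] at hpm
  have hterm : ∀ t ∈ range B, x t ^ (3 / 2 : ℝ) ≤ Real.sqrt A * y t := by
    intro t _
    rw [rp32 (hx0 t)]
    calc Real.sqrt (x t ^ 3) ≤ Real.sqrt (A * y t ^ 2) := Real.sqrt_le_sqrt (hxy t)
      _ = Real.sqrt A * y t := by rw [Real.sqrt_mul hA, Real.sqrt_sq (hy0 t)]
  have hS0 : 0 ≤ ∑ t ∈ range B, x t := sum_nonneg (fun t _ => hx0 t)
  have hY0 : 0 ≤ ∑ t ∈ range B, y t := sum_nonneg (fun t _ => hy0 t)
  have h2 : (∑ t ∈ range B, x t) ^ (3 / 2 : ℝ) ≤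
      (B : ℝ) ^ (3 / 2 - 1 : ℝ) * (Real.sqrt A * ∑ t ∈ range B, y t) := by
    refine hpm.trans ?_
    apply mul_le_mul_of_nonneg_left _ (Real.rpow_nonneg (Nat.cast_nonneg B) _)
    rw [mul_sum]
    exact sum_le_sum hterm
  rw [← rp32sq hS0]
  calc ((∑ t ∈ range B, x t) ^ (3 / 2 : ℝ)) ^ 2 ≤
        ((B : ℝ) ^ (3 / 2 - 1 : ℝ) * (Real.sqrt A * ∑ t ∈ range B, y t)) ^ 2 :=
        pow_le_pow_left₀ (Real.rpow_nonneg hS0 _) h2 2
    _ = ((B : ℝ) ^ (3 / 2 - 1 : ℝ)) ^ 2 * (Real.sqrt A) ^ 2 * (∑ t ∈ range B, y t) ^ 2 := by ring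
    _ = B * A * (∑ t ∈ range B, y t) ^ 2 := by
        rw [Real.sq_sqrt hA, rp12sq (Nat.cast_nonneg B)]
    _ = _ := by ring

end Pool.Agent.TH529.RD
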